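import Pool.Agent.Lib.Pf720rt.Tools

/-!
# From bounded functions to integrable functions
-/

set_option autoImplicit false
set_option linter.unusedSectionVars false
set_option linter.unusedVariables false

open MeasureTheory Filter Topology Finset

namespace Pool.Agent.Lib.Pf720rt

/-- truncation -/
noncomputable def trc {Y : Type*} (g : Y → ℂ) (k : ℕ) (y : Y) : ℂ :=
  if ‖g y‖ ≤ (k : ℝ) + 1 then g y else 0

lemma trc_meas {Y : Type*} [MeasurableSpace Y] {g : Y → ℂ} (hg : Measurable g) (k : ℕ) :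
    Measurable (trc g k) :=
  Measurable.ite (measurableSet_le hg.norm measurable_const) hg measurable_const

lemma trc_bd {Y : Type*} (g : Y → ℂ) (k : ℕ) (y : Y) : ‖trc g k y‖ ≤ (k : ℝ) + 1 := by
  unfold trc
  split_ifs with h
  · exact h
  · rw [norm_zero]; positivity

lemma trc_diff {Y : Type*} (g : Y → ℂ) (k : ℕ) (y : Y) : ‖g y - trc g k y‖ ≤ ‖g y‖ := by
  unfold trc
  split_ifs
  · simp
  · simp

lemma trc_lim {Y : Type*} [MeasurableSpace Y] {ν : Measure Y} {g : Y → ℂ} (hg : Measurable g)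
    (hgi : Integrable g ν) : Tendsto (fun k : ℕ => ∫ y, ‖g y - trc g k y‖ ∂ν) atTop (𝓝 0) := by
  have h1 : Tendsto (fun k : ℕ => ∫ y, ‖g y - trc g k y‖ ∂ν) atTop (𝓝 (∫ y, (0 : ℝ) ∂ν)) := by
    refine tendsto_integral_of_dominated_convergence (fun y => ‖g y‖)
      (fun k => (hg.sub (trc_meas hg k)).norm.aestronglyMeasurable) hgi.norm
      (fun k => Eventually.of_forall fun y => ?_) (Eventually.of_forall fun y => ?_)
    · rw [norm_norm]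
      exact trc_diff g k y
    · refine tendsto_const_nhds.congr' ?_
      obtain ⟨K, hK⟩ := exists_nat_ge ‖g y‖
      filter_upwards [eventually_ge_atTop K] with k hk
      have hk' : (K : ℝ) ≤ k := by exact_mod_cast hk
      unfold trc
      rw [if_pos (by linarith), sub_self, norm_zero]
  simpa using h1

lemma trc_conv {Y : Type*} [MeasurableSpace Y] {ν : Measure Y} [IsProbabilityMeasure ν]
    {S : Y → Y} (w : ℕ → ℂ)
    (hbd : ∀ g : Y → ℂ, Measurable g → (∀ y, ‖g y‖ ≤ 1) →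
      ∀ᵐ y ∂ν, ∃ L : ℂ, Tendsto (fun N : ℕ => (N : ℂ)⁻¹ *
        ∑ m ∈ Finset.Icc 1 N, w m * g (S^[m] y)) atTop (𝓝 L))
    (g : Y → ℂ) (hg : Measurable g) (k : ℕ) :
    ∀ᵐ y ∂ν, ∃ L : ℂ, Tendsto (fun N : ℕ => (N : ℂ)⁻¹ *
        ∑ m ∈ Finset.Icc 1 N, w m * trc g k (S^[m] y)) atTop (𝓝 L) := by
  have hk0 : (0 : ℝ) < (k : ℝ) + 1 := by positivity
  have hkn : ‖((k : ℂ) + 1)‖ = (k : ℝ) + 1 := by
    have h1 : ((k : ℂ) + 1) = (((k : ℝ) + 1 : ℝ) : ℂ) := by push_cast; rfl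
    rw [h1, Complex.norm_real, Real.norm_eq_abs, abs_of_pos hk0]
  have hkne : ((k : ℂ) + 1) ≠ 0 := by
    rw [← norm_ne_zero_iff, hkn]
    exact hk0.ne'
  filter_upwards [hbd (fun y => trc g k y / ((k : ℂ) + 1)) ((trc_meas hg k).div_const _)
    (fun y => by
      rw [norm_div, hkn, div_le_one hk0]
      exact trc_bd g k y)] with y hy
  obtain ⟨L, hL⟩ := hy
  refine ⟨((k : ℂ) + 1) * L, (hL.const_mul ((k : ℂ) + 1)).congr fun N => ?_⟩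
  have : ∑ m ∈ Finset.Icc 1 N, w m * trc g k (S^[m] y) =
      ((k : ℂ) + 1) * ∑ m ∈ Finset.Icc 1 N, w m * (trc g k (S^[m] y) / ((k : ℂ) + 1)) := by
    rw [Finset.mul_sum]
    refine Finset.sum_congr rfl fun m _ => ?_
    rw [mul_div_assoc', mul_div_cancel₀ _ hkne]
  rw [this]
  ring

/-- the deterministic part -/
lemma det_conv {w a b : ℕ → ℂ} {C ε : ℝ} (hC0 : 0 < C) (hε : 0 < ε) (hwC : ∀ m, ‖w m‖ ≤ C) {L : ℂ}
    (h1 : ∀ᶠ N : ℕ in atTop, (N : ℝ)⁻¹ * ∑ m ∈ Finset.Icc 1 N, ‖a m - b m‖ < ε / (2 * C))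
    (h2 : Tendsto (fun N : ℕ => (N : ℂ)⁻¹ * ∑ m ∈ Finset.Icc 1 N, w m * b m) atTop (𝓝 L)) :
    ∀ᶠ N : ℕ in atTop, ‖(N : ℂ)⁻¹ * ∑ m ∈ Finset.Icc 1 N, w m * a m - L‖ ≤ ε := by
  have e2 : ∀ᶠ N : ℕ in atTop, ‖(N : ℂ)⁻¹ * ∑ m ∈ Finset.Icc 1 N, w m * b m - L‖ < ε / 2 := by
    have h5 : Tendsto (fun N : ℕ => ‖(N : ℂ)⁻¹ * ∑ m ∈ Finset.Icc 1 N, w m * b m
        - L‖) atTop (𝓝 0) := by
      have := (h2.sub_const L).norm
      simpa using this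
    exact h5.eventually_lt_const (by positivity)
  filter_upwards [h1, e2] with N n1 n2
  have hsplit : (N : ℂ)⁻¹ * ∑ m ∈ Finset.Icc 1 N, w m * a m - L =
      (N : ℂ)⁻¹ * ∑ m ∈ Finset.Icc 1 N, w m * (a m - b m) +
      ((N : ℂ)⁻¹ * ∑ m ∈ Finset.Icc 1 N, w m * b m - L) := by
    have h6 : ∑ m ∈ Finset.Icc 1 N, w m * a m =
        ∑ m ∈ Finset.Icc 1 N, w m * (a m - b m) + ∑ m ∈ Finset.Icc 1 N, w m * b m := by
      rw [← Finset.sum_add_distrib]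
      refine Finset.sum_congr rfl fun m _ => ?_
      ring
    rw [h6]
    ring
  have hmid : ‖(N : ℂ)⁻¹ * ∑ m ∈ Finset.Icc 1 N, w m * (a m - b m)‖ ≤
      C * ((N : ℝ)⁻¹ * ∑ m ∈ Finset.Icc 1 N, ‖a m - b m‖) := by
    rw [norm_mul, norm_inv, Complex.norm_natCast, mul_left_comm]
    refine mul_le_mul_of_nonneg_left ?_ (inv_nonneg.2 (Nat.cast_nonneg N))
    rw [Finset.mul_sum]
    refine (norm_sum_le _ _).trans (Finset.sum_le_sum fun m _ => ?_)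
    rw [norm_mul]
    exact mul_le_mul_of_nonneg_right (hwC m) (norm_nonneg _)
  rw [hsplit]
  refine (norm_add_le _ _).trans ?_
  have h7 : C * ((N : ℝ)⁻¹ * ∑ m ∈ Finset.Icc 1 N, ‖a m - b m‖) ≤
      C * (ε / (2 * C)) := mul_le_mul_of_nonneg_left n1.le hC0.le
  have h8 : C * (ε / (2 * C)) = ε / 2 := by field_simp
  linarith

/-- from bounded functions to measurable integrable functions -/
lemma L1meas {Y : Type*} [MeasurableSpace Y] {ν : Measure Y} [IsProbabilityMeasure ν]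
    {S : Y → Y} (hS : MeasurePreserving S ν ν) (w : ℕ → ℂ) (C : ℝ) (hC0 : 0 < C)
    (hwC : ∀ m, ‖w m‖ ≤ C)
    (hbd : ∀ g : Y → ℂ, Measurable g → (∀ y, ‖g y‖ ≤ 1) →
      ∀ᵐ y ∂ν, ∃ L : ℂ, Tendsto (fun N : ℕ => (N : ℂ)⁻¹ *
        ∑ m ∈ Finset.Icc 1 N, w m * g (S^[m] y)) atTop (𝓝 L))
    (g : Y → ℂ) (hg : Measurable g) (hgi : Integrable g ν) :
    ∀ᵐ y ∂ν, ∃ L : ℂ, Tendsto (fun N : ℕ => (N : ℂ)⁻¹ *
        ∑ m ∈ Finset.Icc 1 N, w m * g (S^[m] y)) atTop (𝓝 L) := by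
  have hgkconv : ∀ᵐ y ∂ν, ∀ k : ℕ, ∃ L : ℂ, Tendsto (fun N : ℕ => (N : ℂ)⁻¹ *
        ∑ m ∈ Finset.Icc 1 N, w m * trc g k (S^[m] y)) atTop (𝓝 L) :=
    ae_all_iff.2 fun k => trc_conv w hbd g hg k
  have hei : ∀ k, Integrable (fun y => ‖g y - trc g k y‖) ν := by
    intro k
    refine (hgi.sub ?_).norm
    exact Integrable.of_bound (trc_meas hg k).aestronglyMeasurable ((k : ℝ) + 1)
      (Eventually.of_forall (trc_bd g k))
  have h1 : ∀ (k : ℕ) (y : Y), 0 ≤ ‖g y - trc g k y‖ := fun k y => norm_nonneg _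
  have h2 : ∀ k : ℕ, Measurable fun y => ‖g y - trc g k y‖ := fun k =>
    (hg.sub (trc_meas hg k)).norm
  have h3 : ∀ k : ℕ, ∀ᵐ y ∂ν, ∃ L : ℝ, Tendsto (fun N : ℕ => (N : ℝ)⁻¹ *
      ∑ m ∈ Finset.Icc 1 N, ‖g (S^[m] y) - trc g k (S^[m] y)‖) atTop (𝓝 L) := by
    intro k
    have h4 := birkhoff_Icc hS (hei k)
    exact h4
  have hsm : ∀ᵐ y ∂ν, ∀ ε : ℝ, 0 < ε → ∃ k, ∀ᶠ N : ℕ in atTop,
      (N : ℝ)⁻¹ * ∑ m ∈ Finset.Icc 1 N, ‖g (S^[m] y) - trc g k (S^[m] y)‖ < ε :=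
    avg_small (μ := ν) (fun m => S^[m]) (fun m => hS.iterate m)
      (fun k y => ‖g y - trc g k y‖) h1 h2 hei (trc_lim hg hgi) h3
  filter_upwards [hgkconv, hsm] with y hy1 hy2
  refine conv_of_approx fun ε hε => ?_
  obtain ⟨k, hk⟩ := hy2 (ε / (2 * C)) (by positivity)
  obtain ⟨L, hL⟩ := hy1 k
  exact ⟨L, det_conv hC0 hε hwC hk hL⟩

/-- from bounded functions to integrable functions -/
lemma L1ext {Y : Type*} [MeasurableSpace Y] {ν : Measure Y} [IsProbabilityMeasure ν]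
    {S : Y → Y} (hS : MeasurePreserving S ν ν) (w : ℕ → ℂ) (C : ℝ) (hC0 : 0 < C)
    (hwC : ∀ m, ‖w m‖ ≤ C)
    (hbd : ∀ g : Y → ℂ, Measurable g → (∀ y, ‖g y‖ ≤ 1) →
      ∀ᵐ y ∂ν, ∃ L : ℂ, Tendsto (fun N : ℕ => (N : ℂ)⁻¹ *
        ∑ m ∈ Finset.Icc 1 N, w m * g (S^[m] y)) atTop (𝓝 L))
    (g : Y → ℂ) (hgi : Integrable g ν) :
    ∀ᵐ y ∂ν, ∃ L : ℂ, Tendsto (fun N : ℕ => (N : ℂ)⁻¹ *
        ∑ m ∈ Finset.Icc 1 N, w m * g (S^[m] y)) atTop (𝓝 L) := by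
  obtain ⟨g', hg'm, hgg'⟩ := hgi.aestronglyMeasurable
  have h1 := L1meas hS w C hC0 hwC hbd g' hg'm.measurable (hgi.congr hgg')
  have hge : ∀ᵐ y ∂ν, ∀ m : ℕ, g (S^[m] y) = g' (S^[m] y) := by
    rw [ae_all_iff]
    intro m
    exact (hS.iterate m).quasiMeasurePreserving.ae hgg'
  filter_upwards [h1, hge] with y hy hy2
  obtain ⟨L, hL⟩ := hy
  refine ⟨L, hL.congr fun N => ?_⟩
  congr 1
  exact Finset.sum_congr rfl fun m _ => by rw [hy2 m]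

end Pool.Agent.Lib.Pf720rt
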