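import Pool.Agent.Lib.Pf720rt.Dec
import Pool.Agent.Lib.Pf720rt.L1
import Pool.Agent.Lib.Rtt.E
import Pool.Agent.Lib.EQG.Lo.Two
import Pool.Agent.Lib.EQG.TAsm

/-!
# The return times theorem along polynomials of degree at least two
-/

set_option autoImplicit false
set_option linter.unusedSectionVars false
set_option linter.unusedVariables false

open MeasureTheory Filter Topology Finset

namespace Pool.Agent.Lib.Pf720rt

/-- the averages of a bounded function along a polynomial converge, and the correlations of a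
function orthogonal to the periodic functions vanish -/
theorem corr {X : Type} [MeasurableSpace X] (μ : Measure X) [IsProbabilityMeasure μ]
    (T : Equiv.Perm X) (hT : Measurable T ∧ Measurable T.symm ∧ MeasurePreserving T μ μ)
    (P : Polynomial ℤ) (hP : 2 ≤ P.natDegree) (f : X → ℂ) (hf : MemLp f ⊤ μ)
    (hreal : ∀ x, (starRingEnd ℂ) (f x) = f x)
    (horth : ∀ q : ℕ, 1 ≤ q → ∀ g : X → ℂ, MemLp g 2 μ → (∀ᵐ x ∂μ, g ((T ^ q) x) = g x) →
        ∫ x, f x * g x ∂μ = 0) :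
    ∀ᵐ x ∂μ, ∀ h : ℕ, 1 ≤ h → Tendsto (fun N : ℕ => (N : ℂ)⁻¹ *
      ∑ m ∈ Finset.Icc 1 N, f ((T ^ (P.eval (((m + h : ℕ) : ℤ)))) x) *
        (starRingEnd ℂ) (f ((T ^ (P.eval (m : ℤ))) x))) atTop (𝓝 0) := by
  rw [ae_all_iff]
  intro h
  by_cases hh : 1 ≤ h
  swap
  · exact Eventually.of_forall fun x h' => absurd h' hh
  obtain ⟨hd1, hd2⟩ := shift_deg P h (by exact_mod_cast (by omega : h ≠ 0)) hP
  set Q : Fin 2 → Polynomial ℤ := ![P, P.comp (Polynomial.X + Polynomial.C (h : ℤ))] with hQ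
  have h0 : (1 : Fin 2) ≠ 0 := by decide
  have key := Pool.Agent.EQD.Lo.G.final (fun h => Pool.Agent.EQD.G.midG h) 2 T hT Q 0
    (fun j => by
      unfold Pool.Agent.EQD.G.dst
      fin_cases j
      · simp [hQ]; omega
      · simp [hQ]; exact hd1)
    (fun a b hab => by
      unfold Pool.Agent.EQD.G.dst at hab
      fin_cases a <;> fin_cases b
      · rfl
      · simp [hQ] at hab; exact absurd hab.symm hd2
      · simp [hQ] at hab; exact absurd hab hd2
      · rfl) (fun _ => f) (fun _ => hf)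
  have key2 := key.2.2 0 (fun q hq g hg hgi => horth q hq g hg hgi)
  filter_upwards [key2] with x hx _
  refine hx.congr fun N => ?_
  congr 1
  refine Finset.sum_congr rfl fun m _ => ?_
  rw [Fin.prod_univ_two, hreal, mul_comm]
  simp only [hQ, Matrix.cons_val_zero, Matrix.cons_val_one]
  rw [Polynomial.eval_comp]
  simp

theorem avgconv {X : Type} [MeasurableSpace X] (μ : Measure X) [IsProbabilityMeasure μ]
    (T : Equiv.Perm X) (hT : Measurable T ∧ Measurable T.symm ∧ MeasurePreserving T μ μ)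
    (P : Polynomial ℤ) (hP : 1 ≤ P.natDegree) (f : X → ℂ) (hf : MemLp f ⊤ μ) :
    ∀ᵐ x ∂μ, ∃ L : ℂ, Tendsto (fun N : ℕ => (N : ℂ)⁻¹ *
      ∑ m ∈ Finset.Icc 1 N, f ((T ^ (P.eval (m : ℤ))) x)) atTop (𝓝 L) := by
  have key := Pool.Agent.EQD.Lo.G.final (fun h => Pool.Agent.EQD.G.midG h) 1 T hT (fun _ => P) 0
    (fun j => by
      unfold Pool.Agent.EQD.G.dst
      fin_cases j
      simp; omega)
    (fun a b _ => Subsingleton.elim a b) (fun _ => f) (fun _ => hf)
  filter_upwards [key.1] with x hx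
  obtain ⟨L, hL⟩ := hx
  refine ⟨L, hL.congr fun N => ?_⟩
  congr 1
  refine Finset.sum_congr rfl fun m _ => ?_
  rw [Fin.prod_univ_one]

lemma mp_zpow {X : Type} [MeasurableSpace X] {μ : Measure X}
    {T : Equiv.Perm X} (hT : Measurable T ∧ Measurable T.symm ∧ MeasurePreserving T μ μ) (k : ℤ) :
    MeasurePreserving (fun x => (T ^ k) x) μ μ := by
  have hnat : ∀ n : ℕ, MeasurePreserving (fun x => (T ^ n) x) μ μ := by
    intro n
    have h := hT.2.2.iterate n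
    have h2 : (fun x => (T ^ n) x) = T^[n] := by
      funext x
      rw [Equiv.Perm.iterate_eq_pow]
    rw [h2]
    exact h
  obtain ⟨n, rfl | rfl⟩ := k.eq_nat_or_neg
  · simpa using hnat n
  · have e : MeasurePreserving (fun x => T.symm x) μ μ := by
      refine ⟨hT.2.1, ?_⟩
      conv_lhs => rw [← hT.2.2.map_eq]
      rw [Measure.map_map hT.2.1 hT.1]
      have : (fun x => T.symm x) ∘ T = id := by funext x; simp
      rw [this, Measure.map_id]
    have h := e.iterate n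
    have h2 : (fun x => (T ^ (-(n : ℤ))) x) = (fun x => T.symm x)^[n] := by
      funext x
      have h3 : (fun x => T.symm x) = ((T⁻¹ : Equiv.Perm X) : X → X) := rfl
      rw [h3, Equiv.Perm.iterate_eq_pow, zpow_neg, zpow_natCast, inv_pow]
    rw [h2]
    exact h

/-- bounded real functions on both sides -/
theorem main_bdd {X : Type} [MeasurableSpace X] (μ : Measure X) [IsProbabilityMeasure μ]
    (T : Equiv.Perm X) (hT : Measurable T ∧ Measurable T.symm ∧ MeasurePreserving T μ μ)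
    (P : Polynomial ℤ) (hP : 2 ≤ P.natDegree) (F : X → ℝ) (hF : Measurable F)
    (hF1 : ∀ x, |F x| ≤ 1) :
    ∀ᵐ x ∂μ, ∀ (Y : Type) [MeasurableSpace Y] (ν : Measure Y) [IsProbabilityMeasure ν]
      (S : Y → Y), MeasurePreserving S ν ν → ∀ g : Y → ℂ, Measurable g → (∀ y, ‖g y‖ ≤ 1) →
      ∀ᵐ y ∂ν, ∃ L : ℂ, Tendsto (fun N : ℕ => (N : ℂ)⁻¹ *
        ∑ m ∈ Finset.Icc 1 N, (F ((T ^ (P.eval (m : ℤ))) x) : ℂ) * g (S^[m] y)) atTop (𝓝 L) := by
  obtain ⟨R, G, hR, hR1, hG, hG1, hGinv, hRG, horth⟩ := dec μ T hT F hF hF1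
  -- correlations
  set f : X → ℂ := fun x => ((((F x - R x) / 2 : ℝ)) : ℂ) with hf
  have hfm : Measurable f := Complex.measurable_ofReal.comp ((hF.sub hR).div_const 2)
  have hf1 : ∀ x, ‖f x‖ ≤ 1 := by
    intro x
    rw [hf]
    simp only [Complex.norm_real, Real.norm_eq_abs]
    rw [abs_div, abs_of_pos (by norm_num : (0 : ℝ) < 2), div_le_one (by norm_num)]
    have := abs_sub (F x) (R x)
    linarith [hF1 x, hR1 x]
  have hfL : MemLp f ⊤ μ := memLp_top_of_bound hfm.aestronglyMeasurable 1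
    (Eventually.of_forall hf1)
  have h1 := corr μ T hT P hP f hfL (fun x => Complex.conj_ofReal _) (by
    intro q hq g hg hgi
    have h := horth q hq g hg hgi
    have h2 : ∀ x, f x * g x = (1 / 2 : ℂ) * (((F x - R x : ℝ) : ℂ) * g x) := by
      intro x
      rw [hf]
      push_cast
      ring
    simp_rw [h2]
    rw [integral_const_mul, h, mul_zero])
  -- the rational part
  have hdm : ∀ i, Measurable fun x => |R x - G i x| := fun i => (hR.sub (hG i)).abs
  have hdb : ∀ i x, |R x - G i x| ≤ 2 := by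
    intro i x
    have := abs_sub (R x) (G i x)
    linarith [hR1 x, hG1 i x]
  have hdi : ∀ i, Integrable (fun x => |R x - G i x|) μ := fun i =>
    Integrable.of_bound (hdm i).aestronglyMeasurable 2 (Eventually.of_forall fun x => by
      rw [Real.norm_eq_abs, abs_abs]; exact hdb i x)
  have h2 : ∀ᵐ x ∂μ, ∀ ε : ℝ, 0 < ε → ∃ i, ∀ᶠ N : ℕ in atTop,
      (N : ℝ)⁻¹ * ∑ m ∈ Finset.Icc 1 N,
        |R ((T ^ (P.eval (m : ℤ))) x) - G i ((T ^ (P.eval (m : ℤ))) x)| < ε := by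
    refine avg_small (μ := μ) (fun m x => (T ^ (P.eval (m : ℤ))) x)
      (fun m => mp_zpow hT (P.eval (m : ℤ))) (fun i x => |R x - G i x|)
      (fun i x => abs_nonneg _) hdm hdi hRG (fun i => ?_)
    have hc : MemLp (fun x => ((|R x - G i x| : ℝ) : ℂ)) ⊤ μ := by
      refine memLp_top_of_bound (Complex.measurable_ofReal.comp (hdm i)).aestronglyMeasurable 2
        (Eventually.of_forall fun x => ?_)
      rw [Complex.norm_real, Real.norm_eq_abs, abs_abs]
      exact hdb i x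
    filter_upwards [avgconv μ T hT P (by omega) _ hc] with x hx
    obtain ⟨L, hL⟩ := hx
    refine ⟨L.re, ((Complex.continuous_re.tendsto L).comp hL).congr fun N => ?_⟩
    simp only [Function.comp]
    rw [← Complex.ofReal_sum, ← Complex.ofReal_natCast, ← Complex.ofReal_inv,
      ← Complex.ofReal_mul, Complex.ofReal_re]
  have h3 : ∀ᵐ x ∂μ, ∀ (i : ℕ) (k : ℤ), G i ((T ^ (i.factorial)) ((T ^ k) x)) = G i ((T ^ k) x) := by
    rw [ae_all_iff]
    intro i
    rw [ae_all_iff]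
    intro k
    exact (mp_zpow hT k).quasiMeasurePreserving.ae (hGinv i)
  filter_upwards [h1, h2, h3] with x hx1 hx2 hx3 Y mY ν hν S hS g hg hg1
  -- the orthogonal part
  have hA := Pool.Agent.Rtt.good_weight (fun m => f ((T ^ (P.eval (m : ℤ))) x))
    (fun m => hf1 _) (fun h hh => by
      have := hx1 h hh
      simpa using this) ν S hS g hg hg1
  -- the periodic parts
  have hGper : ∀ (i : ℕ) (m : ℕ), G i ((T ^ (P.eval (((m + i.factorial : ℕ)) : ℤ))) x) =
      G i ((T ^ (P.eval (m : ℤ))) x) := by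
    intro i m
    set q : ℕ := i.factorial with hq
    have hstep : ∀ k : ℤ, G i ((T ^ (k + q)) x) = G i ((T ^ k) x) := by
      intro k
      have := hx3 i k
      rw [← hq] at this
      rw [← this, add_comm, zpow_add, zpow_natCast]
      rfl
    have hmul : ∀ (n : ℕ) (k : ℤ), G i ((T ^ (k + n * q)) x) = G i ((T ^ k) x) := by
      intro n
      induction n with
      | zero => intro k; simp
      | succ n ih =>
        intro k
        have : k + ((n + 1 : ℕ) : ℤ) * q = (k + q) + n * q := by push_cast; ring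
        rw [this, ih, hstep]
    have hdvd : (q : ℤ) ∣ P.eval (((m + q : ℕ)) : ℤ) - P.eval (m : ℤ) := by
      have h5 := Polynomial.sub_dvd_eval_sub (((m + q : ℕ)) : ℤ) (m : ℤ) P
      have h6 : (((m + q : ℕ)) : ℤ) - (m : ℤ) = q := by push_cast; ring
      rwa [h6] at h5
    obtain ⟨z, hz⟩ := hdvd
    obtain ⟨n, rfl | rfl⟩ := z.eq_nat_or_neg
    · have : P.eval (((m + q : ℕ)) : ℤ) = P.eval (m : ℤ) + n * q := by linarith [mul_comm (q : ℤ) n]
      rw [this, hmul]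
    · have h7 : P.eval (m : ℤ) = P.eval (((m + q : ℕ)) : ℤ) + n * q := by
        linarith [mul_comm (q : ℤ) n, mul_neg (q : ℤ) n]
      rw [h7, hmul]
  have hB : ∀ᵐ y ∂ν, ∀ i : ℕ, ∃ L : ℂ, Tendsto (fun N : ℕ => (N : ℂ)⁻¹ *
      ∑ m ∈ Finset.Icc 1 N, (G i ((T ^ (P.eval (m : ℤ))) x) : ℂ) * g (S^[m] y)) atTop (𝓝 L) := by
    rw [ae_all_iff]
    intro i
    exact per hS (fun m => (G i ((T ^ (P.eval (m : ℤ))) x) : ℂ)) i.factorial
      (Nat.factorial_pos i) (fun m => congrArg Complex.ofReal (hGper i m)) hg hg1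
  filter_upwards [hA, hB] with y hyA hyB
  refine conv_of_approx fun ε hε => ?_
  obtain ⟨i, hi⟩ := hx2 (ε / 4) (by positivity)
  obtain ⟨L, hL⟩ := hyB i
  refine ⟨L, ?_⟩
  have e1 : ∀ᶠ N : ℕ in atTop, ‖(N : ℂ)⁻¹ * ∑ m ∈ Finset.Icc 1 N,
      f ((T ^ (P.eval (m : ℤ))) x) * g (S^[m] y)‖ < ε / 8 := by
    have := hyA.norm
    rw [norm_zero] at this
    exact this.eventually_lt_const (by positivity)
  have e2 : ∀ᶠ N : ℕ in atTop, ‖(N : ℂ)⁻¹ * ∑ m ∈ Finset.Icc 1 N,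
      (G i ((T ^ (P.eval (m : ℤ))) x) : ℂ) * g (S^[m] y) - L‖ < ε / 4 := by
    have h5 : Tendsto (fun N : ℕ => ‖(N : ℂ)⁻¹ * ∑ m ∈ Finset.Icc 1 N,
      (G i ((T ^ (P.eval (m : ℤ))) x) : ℂ) * g (S^[m] y) - L‖) atTop (𝓝 0) := by
      have := (hL.sub_const L).norm
      simpa using this
    exact h5.eventually_lt_const (by positivity)
  filter_upwards [e1, e2, hi] with N n1 n2 n3
  have hsplit : (N : ℂ)⁻¹ * ∑ m ∈ Finset.Icc 1 N, (F ((T ^ (P.eval (m : ℤ))) x) : ℂ) * g (S^[m] y)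
      - L = 2 * ((N : ℂ)⁻¹ * ∑ m ∈ Finset.Icc 1 N, f ((T ^ (P.eval (m : ℤ))) x) * g (S^[m] y))
      + ((N : ℂ)⁻¹ * ∑ m ∈ Finset.Icc 1 N, ((R ((T ^ (P.eval (m : ℤ))) x) -
          G i ((T ^ (P.eval (m : ℤ))) x) : ℝ) : ℂ) * g (S^[m] y))
      + ((N : ℂ)⁻¹ * ∑ m ∈ Finset.Icc 1 N, (G i ((T ^ (P.eval (m : ℤ))) x) : ℂ) * g (S^[m] y)
          - L) := by
    have h6 : ∑ m ∈ Finset.Icc 1 N, (F ((T ^ (P.eval (m : ℤ))) x) : ℂ) * g (S^[m] y) =
        2 * ∑ m ∈ Finset.Icc 1 N, f ((T ^ (P.eval (m : ℤ))) x) * g (S^[m] y) +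
        ∑ m ∈ Finset.Icc 1 N, ((R ((T ^ (P.eval (m : ℤ))) x) -
          G i ((T ^ (P.eval (m : ℤ))) x) : ℝ) : ℂ) * g (S^[m] y) +
        ∑ m ∈ Finset.Icc 1 N, (G i ((T ^ (P.eval (m : ℤ))) x) : ℂ) * g (S^[m] y) := by
      rw [Finset.mul_sum, ← Finset.sum_add_distrib, ← Finset.sum_add_distrib]
      refine Finset.sum_congr rfl fun m _ => ?_
      rw [hf]
      push_cast
      ring
    rw [h6]
    ring
  have hmid : ‖(N : ℂ)⁻¹ * ∑ m ∈ Finset.Icc 1 N, ((R ((T ^ (P.eval (m : ℤ))) x) -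
      G i ((T ^ (P.eval (m : ℤ))) x) : ℝ) : ℂ) * g (S^[m] y)‖ ≤ (N : ℝ)⁻¹ *
        ∑ m ∈ Finset.Icc 1 N,
          |R ((T ^ (P.eval (m : ℤ))) x) - G i ((T ^ (P.eval (m : ℤ))) x)| := by
    rw [norm_mul, norm_inv, Complex.norm_natCast]
    refine mul_le_mul_of_nonneg_left ?_ (inv_nonneg.2 (Nat.cast_nonneg N))
    refine (norm_sum_le _ _).trans (Finset.sum_le_sum fun m _ => ?_)
    rw [norm_mul, Complex.norm_real, Real.norm_eq_abs]
    exact mul_le_of_le_one_right (abs_nonneg _) (hg1 _)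
  rw [hsplit]
  refine (norm_add₃_le).trans ?_
  rw [norm_mul]
  have : ‖(2 : ℂ)‖ = 2 := by norm_num
  rw [this]
  linarith

/-- complex bounded function on the left, integrable function on the right -/
theorem main {X : Type} [MeasurableSpace X] (μ : Measure X) [IsProbabilityMeasure μ]
    (T : Equiv.Perm X) (hT : Measurable T ∧ Measurable T.symm ∧ MeasurePreserving T μ μ)
    (P : Polynomial ℤ) (hP : 2 ≤ P.natDegree) (f : X → ℂ) (hf : MemLp f ⊤ μ) :
    ∀ᵐ x ∂μ, ∀ (Y : Type) [MeasurableSpace Y] (ν : Measure Y) [IsProbabilityMeasure ν]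
      (S : Y → Y), MeasurePreserving S ν ν → ∀ g : Y → ℂ, Integrable g ν →
      ∀ᵐ y ∂ν, ∃ L : ℂ, Tendsto (fun N : ℕ => (N : ℂ)⁻¹ *
        ∑ m ∈ Finset.Icc 1 N, f ((T ^ (P.eval (m : ℤ))) x) * g (S^[m] y)) atTop (𝓝 L) := by
  -- a bounded measurable version of `f`
  obtain ⟨C, hC0, hC⟩ : ∃ C : ℝ, 0 < C ∧ ∀ᵐ x ∂μ, ‖f x‖ ≤ C := by
    refine ⟨(eLpNorm f ⊤ μ).toReal + 1, by positivity, ?_⟩
    have h1 := ae_le_eLpNormEssSup (f := f) (μ := μ)
    filter_upwards [h1] with x hx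
    have h2 : (‖f x‖ₑ).toReal ≤ (eLpNorm f ⊤ μ).toReal := by
      refine ENNReal.toReal_mono hf.2.ne ?_
      rwa [eLpNorm_exponent_top]
    rw [toReal_enorm] at h2
    linarith
  set f' : X → ℂ := hf.1.mk f with hf'
  have hff' : f =ᵐ[μ] f' := hf.1.ae_eq_mk
  have hf'm : Measurable f' := hf.1.stronglyMeasurable_mk.measurable
  set tr : ℝ → ℝ := fun t => max (-1) (min 1 t) with htr
  have htrm : Measurable tr := measurable_const.max (measurable_const.min measurable_id)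
  have htr1 : ∀ t, |tr t| ≤ 1 := by
    intro t
    rw [abs_le]
    exact ⟨le_max_left _ _, max_le (by norm_num) (min_le_left _ _)⟩
  have htreq : ∀ t, |t| ≤ 1 → tr t = t := by
    intro t ht
    rw [abs_le] at ht
    simp only [htr]
    rw [min_eq_right ht.2, max_eq_right ht.1]
  set F1 : X → ℝ := fun x => tr ((f' x).re / C) with hF1
  set F2 : X → ℝ := fun x => tr ((f' x).im / C) with hF2
  have hF1m : Measurable F1 := htrm.comp ((Complex.measurable_re.comp hf'm).div_const C)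
  have hF2m : Measurable F2 := htrm.comp ((Complex.measurable_im.comp hf'm).div_const C)
  have heq : ∀ᵐ x ∂μ, f x = (C : ℂ) * ((F1 x : ℂ) + (F2 x : ℂ) * Complex.I) ∧ ‖f x‖ ≤ C := by
    filter_upwards [hC, hff'] with x hx hxe
    refine ⟨?_, hx⟩
    have h1 : |(f' x).re / C| ≤ 1 := by
      rw [abs_div, abs_of_pos hC0, div_le_one hC0, ← hxe]
      exact (Complex.abs_re_le_norm _).trans hx
    have h2 : |(f' x).im / C| ≤ 1 := by
      rw [abs_div, abs_of_pos hC0, div_le_one hC0, ← hxe]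
      exact (Complex.abs_im_le_norm _).trans hx
    rw [hF1, hF2]
    simp only
    rw [htreq _ h1, htreq _ h2, hxe]
    have hCne : (C : ℂ) ≠ 0 := by exact_mod_cast hC0.ne'
    push_cast
    field_simp
    exact (Complex.re_add_im _).symm
  have heq' : ∀ᵐ x ∂μ, ∀ m : ℕ, f ((T ^ (P.eval (m : ℤ))) x) = (C : ℂ) *
      ((F1 ((T ^ (P.eval (m : ℤ))) x) : ℂ) + (F2 ((T ^ (P.eval (m : ℤ))) x) : ℂ) * Complex.I) ∧
      ‖f ((T ^ (P.eval (m : ℤ))) x)‖ ≤ C := by
    rw [ae_all_iff]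
    intro m
    exact (mp_zpow hT (P.eval (m : ℤ))).quasiMeasurePreserving.ae heq
  filter_upwards [main_bdd μ T hT P hP F1 hF1m (fun x => htr1 _),
    main_bdd μ T hT P hP F2 hF2m (fun x => htr1 _), heq'] with x hx1 hx2 hx3 Y mY ν hν S hS g hg
  set w : ℕ → ℂ := fun m => f ((T ^ (P.eval (m : ℤ))) x) with hw
  have hwC : ∀ m, ‖w m‖ ≤ C := fun m => (hx3 m).2
  -- bounded functions
  have hbd : ∀ g : Y → ℂ, Measurable g → (∀ y, ‖g y‖ ≤ 1) →
      ∀ᵐ y ∂ν, ∃ L : ℂ, Tendsto (fun N : ℕ => (N : ℂ)⁻¹ *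
        ∑ m ∈ Finset.Icc 1 N, w m * g (S^[m] y)) atTop (𝓝 L) := by
    intro g hg hg1
    filter_upwards [hx1 Y ν S hS g hg hg1, hx2 Y ν S hS g hg hg1] with y hy1 hy2
    obtain ⟨L1, hL1⟩ := hy1
    obtain ⟨L2, hL2⟩ := hy2
    refine ⟨(C : ℂ) * (L1 + L2 * Complex.I), ?_⟩
    have h1 := (hL1.add (hL2.mul_const Complex.I)).const_mul (C : ℂ)
    refine h1.congr fun N => ?_
    have h2 : ∑ m ∈ Finset.Icc 1 N, w m * g (S^[m] y) = (C : ℂ) *
        ((∑ m ∈ Finset.Icc 1 N, (F1 ((T ^ (P.eval (m : ℤ))) x) : ℂ) * g (S^[m] y)) +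
        (∑ m ∈ Finset.Icc 1 N, (F2 ((T ^ (P.eval (m : ℤ))) x) : ℂ) * g (S^[m] y)) *
          Complex.I) := by
      rw [Finset.sum_mul, ← Finset.sum_add_distrib, Finset.mul_sum]
      refine Finset.sum_congr rfl fun m _ => ?_
      rw [hw]
      simp only
      rw [(hx3 m).1]
      ring
    rw [h2]
    ring
  exact L1ext hS w C hC0 hwC hbd g hg

end Pool.Agent.Lib.Pf720rt
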