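import Mathlib

/-!
# Birkhoff's theorem for integrable functions and a not necessarily invertible map
-/

set_option autoImplicit false
set_option linter.unusedSectionVars false
set_option linter.unusedVariables false

open MeasureTheory Filter Topology Finset

namespace Pool.Agent.Lib.Pf720rt

variable {Y : Type*} [MeasurableSpace Y] {ν : Measure Y} {S : Y → Y}

/-- Birkhoff sums -/
noncomputable def bs (S : Y → Y) (g : Y → ℝ) (n : ℕ) (y : Y) : ℝ := ∑ i ∈ range n, g (S^[i] y)

lemma bs_zero (g : Y → ℝ) (y : Y) : bs S g 0 y = 0 := by simp [bs]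

lemma bs_succ (g : Y → ℝ) (n : ℕ) (y : Y) : bs S g (n + 1) y = g y + bs S g n (S y) := by
  unfold bs
  rw [sum_range_succ']
  simp only [Function.iterate_succ_apply, Function.iterate_zero_apply]
  ring

lemma measurable_bs (hS : Measurable S) {g : Y → ℝ} (hg : Measurable g) (n : ℕ) :
    Measurable (bs S g n) :=
  Finset.measurable_fun_sum _ fun i _ => hg.comp (hS.iterate i)

/-- running maximum -/
noncomputable def rm (S : Y → Y) (g : Y → ℝ) : ℕ → Y → ℝ
  | 0, _ => 0
  | n + 1, y => max 0 (g y + rm S g n (S y))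

lemma rm_nonneg (g : Y → ℝ) (n : ℕ) (y : Y) : 0 ≤ rm S g n y := by
  cases n with
  | zero => exact le_rfl
  | succ n => exact le_max_left _ _

lemma rm_le_succ (g : Y → ℝ) (n : ℕ) (y : Y) : rm S g n y ≤ rm S g (n + 1) y := by
  induction n generalizing y with
  | zero => exact le_max_left _ _
  | succ n ih => exact max_le_max le_rfl (by linarith [ih (S y)])

lemma rm_mono (g : Y → ℝ) (y : Y) : Monotone fun n => rm S g n y :=
  monotone_nat_of_le_succ fun n => rm_le_succ g n y

lemma le_rm (g : Y → ℝ) (n : ℕ) (y : Y) : bs S g n y ≤ rm S g n y := by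
  induction n generalizing y with
  | zero => simp [bs, rm]
  | succ n ih =>
    rw [bs_succ]
    exact le_max_of_le_right (by linarith [ih (S y)])

lemma rm_exists (g : Y → ℝ) (n : ℕ) (y : Y) : ∃ k, rm S g n y = bs S g k y := by
  induction n generalizing y with
  | zero => exact ⟨0, by simp [rm, bs]⟩
  | succ n ih =>
    by_cases h : g y + rm S g n (S y) ≤ 0
    · exact ⟨0, by rw [bs_zero]; exact max_eq_left h⟩
    · obtain ⟨k, hk⟩ := ih (S y)
      refine ⟨k + 1, ?_⟩
      rw [bs_succ, ← hk]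
      exact max_eq_right (not_le.1 h).le

lemma measurable_rm (hS : Measurable S) {g : Y → ℝ} (hg : Measurable g) (n : ℕ) :
    Measurable (rm S g n) := by
  induction n with
  | zero => exact measurable_const
  | succ n ih => exact measurable_const.max (hg.add (ih.comp hS))

lemma integrable_rm (hS : MeasurePreserving S ν ν) {g : Y → ℝ} (hg : Measurable g)
    (hgi : Integrable g ν) [IsFiniteMeasure ν] (n : ℕ) : Integrable (rm S g n) ν := by
  induction n with
  | zero => exact integrable_const (0 : ℝ)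
  | succ n ih =>
    have h1 : Integrable (fun y => g y + rm S g n (S y)) ν :=
      hgi.add (hS.integrable_comp_of_integrable ih)
    exact (integrable_const (0 : ℝ)).sup h1

/-- Hopf's maximal ergodic lemma -/
lemma hopf_n [IsFiniteMeasure ν] (hS : MeasurePreserving S ν ν) {g : Y → ℝ} (hg : Measurable g)
    (hgi : Integrable g ν) (n : ℕ) : 0 ≤ ∫ y in {y | 0 < rm S g n y}, g y ∂ν := by
  have hSm := hS.measurable
  have hmeas := measurable_rm hSm hg n
  have hint := integrable_rm hS hg hgi n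
  have hintT : Integrable (fun y => rm S g n (S y)) ν := hS.integrable_comp_of_integrable hint
  have hset : MeasurableSet {y | 0 < rm S g n y} := measurableSet_lt measurable_const hmeas
  have heq : ∫ y, rm S g n (S y) ∂ν = ∫ y, rm S g n y ∂ν := by
    conv_rhs => rw [← hS.map_eq]
    rw [integral_map hSm.aemeasurable hmeas.aestronglyMeasurable]
  have key : ∫ y, (rm S g n y - rm S g n (S y)) ∂ν
      ≤ ∫ y, ({y | 0 < rm S g n y}.indicator g) y ∂ν := by
    refine integral_mono (hint.sub hintT) (hgi.indicator hset) fun y => ?_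
    by_cases hy : 0 < rm S g n y
    · rw [Set.indicator_of_mem (by exact hy)]
      cases n with
      | zero => simp [rm] at hy
      | succ n =>
        have h1 : rm S g (n + 1) y = g y + rm S g n (S y) := by
          have : rm S g (n + 1) y = max 0 (g y + rm S g n (S y)) := rfl
          rw [this] at hy ⊢
          exact max_eq_right ((lt_max_iff.1 hy).resolve_left (lt_irrefl _)).le
        have h2 := rm_le_succ (S := S) g n (S y)
        show rm S g (n + 1) y - rm S g (n + 1) (S y) ≤ g y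
        linarith
    · rw [Set.indicator_of_notMem (by exact hy)]
      have h1 : rm S g n y = 0 := le_antisymm (not_lt.1 hy) (rm_nonneg g n y)
      have h2 := rm_nonneg (S := S) g n (S y)
      show rm S g n y - rm S g n (S y) ≤ 0
      linarith
  rw [integral_sub hint hintT, heq, sub_self] at key
  rwa [integral_indicator hset] at key

/-- Hopf's lemma, all times -/
lemma hopf_all [IsFiniteMeasure ν] (hS : MeasurePreserving S ν ν) {g : Y → ℝ} (hg : Measurable g)
    (hgi : Integrable g ν) : 0 ≤ ∫ y in {y | ∃ n, 0 < bs S g n y}, g y ∂ν := by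
  have hU : {y | ∃ n, 0 < bs S g n y} = ⋃ n, {y | 0 < rm S g n y} := by
    ext y
    simp only [Set.mem_ofPred_eq, Set.mem_iUnion]
    constructor
    · rintro ⟨n, hn⟩
      exact ⟨n, hn.trans_le (le_rm g n y)⟩
    · rintro ⟨n, hn⟩
      obtain ⟨k, hk⟩ := rm_exists (S := S) g n y
      exact ⟨k, hk ▸ hn⟩
  rw [hU]
  have hmono : Monotone fun n => {y | 0 < rm S g n y} := by
    intro a b hab y hy
    exact lt_of_lt_of_le hy (rm_mono g y hab)
  have h := tendsto_setIntegral_of_monotone (μ := ν) (f := g)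
    (fun n => measurableSet_lt measurable_const (measurable_rm hS.measurable hg n)) hmono
    hgi.integrableOn
  exact ge_of_tendsto h (Eventually.of_forall fun n => hopf_n hS hg hgi n)

/-- weak type inequality -/
lemma weak [IsFiniteMeasure ν] (hS : MeasurePreserving S ν ν) {g : Y → ℝ} (hg : Measurable g)
    (hgi : Integrable g ν) (hg0 : ∀ y, 0 ≤ g y) (t : ℝ) (ht : 0 ≤ t) :
    t * ν.real {y | ∃ n : ℕ, (n : ℝ) * t < bs S g n y} ≤ ∫ y, g y ∂ν := by
  set G : Y → ℝ := fun y => g y - t with hG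
  have hGm : Measurable G := hg.sub_const t
  have hGi : Integrable G ν := hgi.sub (integrable_const t)
  have hset : {y | ∃ n : ℕ, (n : ℝ) * t < bs S g n y} = {y | ∃ n, 0 < bs S G n y} := by
    ext y
    simp only [Set.mem_ofPred_eq]
    refine exists_congr fun n => ?_
    have : bs S G n y = bs S g n y - n * t := by
      simp [bs, hG, Finset.sum_sub_distrib]
    rw [this, sub_pos]
  have h := hopf_all hS hGm hGi
  rw [← hset] at h
  set E := {y | ∃ n : ℕ, (n : ℝ) * t < bs S g n y}
  have h1 : ∫ y in E, G y ∂ν = ∫ y in E, g y ∂ν - t * ν.real E := by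
    simp only [hG]
    rw [integral_sub hgi.integrableOn (integrable_const _)]
    simp [mul_comm]
  have h2 : ∫ y in E, g y ∂ν ≤ ∫ y, g y ∂ν :=
    setIntegral_le_integral hgi (Eventually.of_forall hg0)
  linarith

/-- the averages are infinitely often below `a`, with any additive margin -/
def lo (S : Y → Y) (g : Y → ℝ) (a : ℝ) (y : Y) : Prop :=
  ∀ C : ℕ, ∀ n : ℕ, ∃ N, n ≤ N ∧ bs S g N y + C < N * a

lemma lo_comp {g : Y → ℝ} {a : ℝ} {y : Y} : lo S g a (S y) ↔ lo S g a y := by
  constructor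
  · intro h C n
    obtain ⟨D, hD⟩ := exists_nat_ge ((C : ℝ) + g y - a)
    obtain ⟨N, hN, hN'⟩ := h D n
    refine ⟨N + 1, by omega, ?_⟩
    rw [bs_succ]
    push_cast
    nlinarith
  · intro h C n
    obtain ⟨D, hD⟩ := exists_nat_ge ((C : ℝ) - g y + a)
    obtain ⟨N, hN, hN'⟩ := h D (n + 1)
    obtain ⟨M, rfl⟩ : ∃ M, N = M + 1 := ⟨N - 1, by omega⟩
    refine ⟨M, by omega, ?_⟩
    rw [bs_succ] at hN'
    push_cast at hN'
    nlinarith

lemma lo_iter {g : Y → ℝ} {a : ℝ} (k : ℕ) (y : Y) : lo S g a (S^[k] y) ↔ lo S g a y := by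
  induction k generalizing y with
  | zero => rfl
  | succ k ih => rw [Function.iterate_succ_apply, ih, lo_comp]

lemma measurableSet_lo (hS : Measurable S) {g : Y → ℝ} (hg : Measurable g) (a : ℝ) :
    MeasurableSet {y | lo S g a y} := by
  have : {y | lo S g a y} = ⋂ C : ℕ, ⋂ n : ℕ, ⋃ N : ℕ, ⋃ _ : n ≤ N,
      {y | bs S g N y + C < N * a} := by
    ext y; simp [lo]
  rw [this]
  refine MeasurableSet.iInter fun C => MeasurableSet.iInter fun n => MeasurableSet.iUnion fun N =>
    MeasurableSet.iUnion fun _ => ?_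
  exact measurableSet_lt ((measurable_bs hS hg N).add_const _) measurable_const

lemma lo_of_freq {g : Y → ℝ} {a₀ a : ℝ} (h : a₀ < a) {y : Y}
    (hf : ∃ᶠ N : ℕ in atTop, (N : ℝ)⁻¹ * bs S g N y < a₀) : lo S g a y := by
  intro C n
  obtain ⟨D, hD⟩ := exists_nat_gt ((C : ℝ) / (a - a₀))
  obtain ⟨N, hN, hN'⟩ := frequently_atTop.1 hf (max n (D + 1))
  have hN1 : (D : ℝ) + 1 ≤ N := by exact_mod_cast (le_max_right n (D + 1)).trans hN
  have hNpos : (0 : ℝ) < N := by
    have : (0 : ℝ) ≤ D := Nat.cast_nonneg D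
    linarith
  refine ⟨N, (le_max_left _ _).trans hN, ?_⟩
  have h1 : bs S g N y < N * a₀ := by
    rw [inv_mul_lt_iff₀ hNpos] at hN'
    exact hN'
  have hda : 0 < a - a₀ := sub_pos.2 h
  have h2 : (C : ℝ) < D * (a - a₀) := by rwa [div_lt_iff₀ hda] at hD
  have h3 : (D : ℝ) * (a - a₀) ≤ N * (a - a₀) :=
    mul_le_mul_of_nonneg_right (by linarith) hda.le
  nlinarith

lemma bs_neg (g : Y → ℝ) (n : ℕ) (y : Y) : bs S (fun y => -g y) n y = -bs S g n y := by
  simp [bs]

lemma int_inv [IsFiniteMeasure ν] (hS : MeasurePreserving S ν ν) {g : Y → ℝ} (hg : Measurable g)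
    (hgi : Integrable g ν) {E : Set Y} (hE : MeasurableSet E) (hEinv : ∀ k y, S^[k] y ∈ E ↔ y ∈ E)
    (a : ℝ) (hEa : ∀ y ∈ E, ∃ N, bs S g N y < N * a) : ∫ y in E, g y ∂ν ≤ a * ν.real E := by
  set G : Y → ℝ := E.indicator fun y => a - g y with hG
  have hGm : Measurable G := (measurable_const.sub hg).indicator hE
  have hGi : Integrable G ν := ((integrable_const a).sub hgi).indicator hE
  have hin : ∀ y ∈ E, ∀ n, bs S G n y = n * a - bs S g n y := by
    intro y hy n
    unfold bs
    have : ∀ i ∈ range n, G (S^[i] y) = a - g (S^[i] y) := fun i _ =>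
      Set.indicator_of_mem ((hEinv i y).2 hy) _
    rw [Finset.sum_congr rfl this, Finset.sum_sub_distrib]
    simp
  have hout : ∀ y ∉ E, ∀ n, bs S G n y = 0 := by
    intro y hy n
    unfold bs
    refine Finset.sum_eq_zero fun i _ => Set.indicator_of_notMem (fun h => hy ?_) _
    exact (hEinv i y).1 h
  have hset : {y | ∃ n, 0 < bs S G n y} = E := by
    ext y
    simp only [Set.mem_ofPred_eq]
    constructor
    · rintro ⟨n, hn⟩
      by_contra hy
      rw [hout y hy n] at hn
      exact lt_irrefl _ hn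
    · intro hy
      obtain ⟨N, hN⟩ := hEa y hy
      exact ⟨N, by rw [hin y hy N]; linarith⟩
  have h := hopf_all hS hGm hGi
  rw [hset] at h
  have h1 : ∫ y in E, G y ∂ν = ∫ y in E, (a - g y) ∂ν :=
    setIntegral_congr_fun hE fun y hy => Set.indicator_of_mem hy _
  rw [h1, integral_sub (integrable_const _) hgi.integrableOn] at h
  simp at h
  linarith [mul_comm a (ν.real E)]

/-- Birkhoff's theorem, real integrable functions -/
theorem birkhoff_real [IsFiniteMeasure ν] (hS : MeasurePreserving S ν ν) {g : Y → ℝ}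
    (hg : Measurable g) (hgi : Integrable g ν) :
    ∀ᵐ y ∂ν, ∃ L : ℝ, Tendsto (fun N : ℕ => (N : ℝ)⁻¹ * bs S g N y) atTop (𝓝 L) := by
  have hnull : ∀ a b : ℝ, a < b → ∀ᵐ y ∂ν, ¬ (lo S g a y ∧ lo S (fun y => -g y) (-b) y) := by
    intro a b hab
    set E : Set Y := {y | lo S g a y} ∩ {y | lo S (fun y => -g y) (-b) y} with hE
    have hEm : MeasurableSet E :=
      (measurableSet_lo hS.measurable hg a).inter (measurableSet_lo hS.measurable hg.neg (-b))
    have hEinv : ∀ k y, S^[k] y ∈ E ↔ y ∈ E := by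
      intro k y
      simp only [hE, Set.mem_inter_iff, Set.mem_ofPred_eq, lo_iter]
    have h1 := int_inv hS hg hgi hEm hEinv a (fun y hy => by
      obtain ⟨N, -, hN⟩ := hy.1 0 0
      exact ⟨N, by simpa using hN⟩)
    have h2 := int_inv hS (g := fun y => -g y) hg.neg hgi.neg hEm hEinv (-b) (fun y hy => by
      obtain ⟨N, -, hN⟩ := hy.2 0 0
      exact ⟨N, by simpa using hN⟩)
    rw [integral_neg] at h2
    have h3 : (b - a) * ν.real E ≤ 0 := by nlinarith
    have h4 : ν.real E = 0 := by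
      refine le_antisymm ?_ measureReal_nonneg
      by_contra hlt
      push Not at hlt
      nlinarith
    have h5 : ν E = 0 := by
      rwa [measureReal_def, ENNReal.toReal_eq_zero_iff, or_iff_left (measure_ne_top _ _)] at h4
    rw [ae_iff]
    refine measure_mono_null ?_ h5
    intro y hy
    simp only [Set.mem_ofPred_eq, not_not] at hy
    exact hy
  have hbd : ∀ᵐ y ∂ν, ∃ t : ℕ, ∀ n : ℕ, bs S (fun y => |g y|) n y ≤ n * t := by
    have habs : Measurable fun y => |g y| := hg.abs
    rw [ae_iff]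
    set Z := {y | ¬ ∃ t : ℕ, ∀ n : ℕ, bs S (fun y => |g y|) n y ≤ n * t} with hZ
    have hle : ∀ t : ℕ, (t : ℝ) * ν.real Z ≤ ∫ y, |g y| ∂ν := by
      intro t
      refine le_trans ?_ (weak hS habs hgi.abs (fun y => abs_nonneg _) t (Nat.cast_nonneg t))
      refine mul_le_mul_of_nonneg_left ?_ (Nat.cast_nonneg t)
      refine measureReal_mono (fun y hy => ?_) (measure_ne_top _ _)
      simp only [hZ, Set.mem_ofPred_eq, not_exists, not_forall, not_le] at hy
      exact hy t
    have h0 : ν.real Z = 0 := by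
      refine le_antisymm ?_ measureReal_nonneg
      by_contra hlt
      push Not at hlt
      obtain ⟨t, ht⟩ := exists_nat_gt ((∫ y, |g y| ∂ν) / ν.real Z)
      rw [div_lt_iff₀ hlt] at ht
      exact absurd (hle t) (not_le.2 ht)
    rwa [measureReal_def, ENNReal.toReal_eq_zero_iff, or_iff_left (measure_ne_top _ _)] at h0
  have hall : ∀ᵐ y ∂ν, ∀ p : ℚ × ℚ, (p.1 : ℝ) < p.2 →
      ¬ (lo S g p.1 y ∧ lo S (fun y => -g y) (-p.2) y) := by
    rw [ae_all_iff]
    intro p
    by_cases hp : (p.1 : ℝ) < p.2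
    · filter_upwards [hnull p.1 p.2 hp] with y hy _
      exact hy
    · exact Eventually.of_forall fun y h => absurd h hp
  filter_upwards [hall, hbd] with y hy hb
  obtain ⟨t, ht⟩ := hb
  have habs : ∀ N : ℕ, |(N : ℝ)⁻¹ * bs S g N y| ≤ t := by
    intro N
    rcases Nat.eq_zero_or_pos N with h0 | hpos
    · subst h0; simp
    have hN : (0 : ℝ) < N := by exact_mod_cast hpos
    rw [abs_mul, abs_of_pos (inv_pos.2 hN), inv_mul_le_iff₀ hN]
    refine le_trans ?_ (ht N)
    exact Finset.abs_sum_le_sum_abs _ _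
  have hbdd : IsBoundedUnder (· ≤ ·) atTop fun N : ℕ => (N : ℝ)⁻¹ * bs S g N y :=
    isBoundedUnder_of ⟨t, fun N => (abs_le.1 (habs N)).2⟩
  have hbdd' : IsBoundedUnder (· ≥ ·) atTop fun N : ℕ => (N : ℝ)⁻¹ * bs S g N y :=
    isBoundedUnder_of ⟨-t, fun N => (abs_le.1 (habs N)).1⟩
  refine tendsto_of_no_upcrossings dense_univ ?_ hbdd hbdd'
  rintro a - b - hab ⟨h1, h2⟩
  obtain ⟨p, hp1, hp2⟩ := exists_rat_btwn hab
  obtain ⟨q, hq1, hq2⟩ := exists_rat_btwn hp2
  refine hy (p, q) hq1 ⟨lo_of_freq hp1 h1, lo_of_freq (a₀ := -b) (neg_lt_neg hq2) ?_⟩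
  refine h2.mono fun N hN => ?_
  rw [bs_neg, mul_neg]
  exact neg_lt_neg hN

/-- Birkhoff's theorem with the sum over `1 ≤ m ≤ N` -/
theorem birkhoff_Icc [IsFiniteMeasure ν] (hS : MeasurePreserving S ν ν) {g : Y → ℝ}
    (hgi : Integrable g ν) :
    ∀ᵐ y ∂ν, ∃ L : ℝ, Tendsto (fun N : ℕ => (N : ℝ)⁻¹ * ∑ m ∈ Finset.Icc 1 N, g (S^[m] y))
      atTop (𝓝 L) := by
  set g' : Y → ℝ := hgi.aestronglyMeasurable.mk g with hg'
  have hgg : g =ᵐ[ν] g' := hgi.aestronglyMeasurable.ae_eq_mk
  have hg'm : Measurable g' := hgi.aestronglyMeasurable.stronglyMeasurable_mk.measurable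
  have hg'i : Integrable g' ν := hgi.congr hgg
  have h1 := birkhoff_real hS hg'm hg'i
  have h2 : ∀ᵐ y ∂ν, ∀ m : ℕ, g (S^[m] y) = g' (S^[m] y) := by
    rw [ae_all_iff]
    intro m
    exact (hS.iterate m).quasiMeasurePreserving.ae hgg
  have h3 : ∀ᵐ y ∂ν, ∃ L : ℝ, Tendsto (fun N : ℕ => (N : ℝ)⁻¹ * bs S g' N (S y)) atTop (𝓝 L) :=
    hS.quasiMeasurePreserving.ae h1
  filter_upwards [h2, h3] with y hy h3
  obtain ⟨L, hL⟩ := h3
  refine ⟨L, hL.congr fun N => ?_⟩
  congr 1
  rw [bs, Finset.sum_congr rfl fun m (_ : m ∈ Finset.Icc 1 N) => hy m]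
  rw [Finset.range_eq_Ico, Finset.sum_Ico_eq_sum_range]
  rw [show Finset.Icc 1 N = Finset.Ico 1 (N + 1) from rfl, Finset.sum_Ico_eq_sum_range]
  simp only [Nat.sub_zero, Nat.add_sub_cancel, zero_add]
  refine Finset.sum_congr rfl fun i _ => ?_
  rw [← Function.iterate_succ_apply, add_comm 1 i]

/-- Birkhoff's theorem, complex integrable functions -/
theorem birkhoffC [IsFiniteMeasure ν] (hS : MeasurePreserving S ν ν) {g : Y → ℂ}
    (hgi : Integrable g ν) :
    ∀ᵐ y ∂ν, ∃ L : ℂ, Tendsto (fun N : ℕ => (N : ℂ)⁻¹ * ∑ m ∈ Finset.Icc 1 N, g (S^[m] y))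
      atTop (𝓝 L) := by
  filter_upwards [birkhoff_Icc hS hgi.re, birkhoff_Icc hS hgi.im] with y h1 h2
  obtain ⟨L1, h1⟩ := h1
  obtain ⟨L2, h2⟩ := h2
  refine ⟨(L1 : ℂ) + (L2 : ℂ) * Complex.I, ?_⟩
  have h3 := ((Complex.continuous_ofReal.tendsto L1).comp h1).add
    (((Complex.continuous_ofReal.tendsto L2).comp h2).mul_const Complex.I)
  refine h3.congr fun N => ?_
  simp only [Function.comp, Complex.ofReal_mul, Complex.ofReal_inv, Complex.ofReal_natCast,
    Complex.ofReal_sum]
  rw [mul_assoc, ← mul_add, Finset.sum_mul, ← Finset.sum_add_distrib]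
  congr 1
  exact Finset.sum_congr rfl fun m _ => Complex.re_add_im _

end Pool.Agent.Lib.Pf720rt
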