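import Pool.Agent.Lib.Pf720rt.Tools

/-!
# Decomposition of a bounded function: the part which is a limit of functions invariant under powers
-/

set_option autoImplicit false
set_option linter.unusedSectionVars false
set_option linter.unusedVariables false

open MeasureTheory Filter Topology

namespace Pool.Agent.Lib.Pf720rt

variable {X : Type} [mX : MeasurableSpace X] {μ : Measure X} [IsProbabilityMeasure μ]
  {T : Equiv.Perm X}

/-- The σ-algebra of measurable sets that are a.e. invariant under `T ^ m`. -/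
@[instance_reducible] def Jx (μ : Measure X) (T : Equiv.Perm X) (m : ℕ) : MeasurableSpace X where
  MeasurableSet' S := MeasurableSet S ∧ ((fun x => (T ^ m) x) ⁻¹' S) =ᵐ[μ] S
  measurableSet_empty := ⟨MeasurableSet.empty, by simp⟩
  measurableSet_compl S hS := ⟨hS.1.compl, by
    rw [Set.preimage_compl]; exact hS.2.compl⟩
  measurableSet_iUnion f hf := ⟨MeasurableSet.iUnion fun i => (hf i).1, by
    rw [Set.preimage_iUnion]
    exact Filter.EventuallyEq.countable_iUnion fun i => (hf i).2⟩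

lemma Jx_le (m : ℕ) : Jx μ T m ≤ mX := fun _ hS => hS.1

lemma mp_pow (hT : Measurable T ∧ Measurable T.symm ∧ MeasurePreserving T μ μ) (n : ℕ) :
    MeasurePreserving (fun x => (T ^ n) x) μ μ := by
  have h := hT.2.2.iterate n
  have h2 : (fun x => (T ^ n) x) = T^[n] := by
    funext x
    rw [Equiv.Perm.iterate_eq_pow]
  rw [h2]
  exact h

lemma inv_mul' (hT : Measurable T ∧ Measurable T.symm ∧ MeasurePreserving T μ μ) {β : Type*}
    {g : X → β} {m : ℕ} (h : ∀ᵐ x ∂μ, g ((T ^ m) x) = g x) (k : ℕ) :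
    ∀ᵐ x ∂μ, g ((T ^ (k * m)) x) = g x := by
  induction k with
  | zero => simp
  | succ k ih =>
    have h2 := (mp_pow hT m).quasiMeasurePreserving.ae ih
    filter_upwards [h, h2] with x h1 h2
    rw [← h1, ← h2, add_mul, one_mul, pow_add]
    rfl

lemma ae_inv_of_meas' {m : ℕ} {g : X → ℝ} (hg : Measurable[Jx μ T m] g) :
    ∀ᵐ x ∂μ, g ((T ^ m) x) = g x := by
  have h1 : ∀ q : ℚ, ∀ᵐ x ∂μ, (q : ℝ) < g ((T ^ m) x) ↔ (q : ℝ) < g x := by
    intro q
    have h2 : MeasurableSet[Jx μ T m] (g ⁻¹' Set.Ioi (q : ℝ)) := hg measurableSet_Ioi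
    have h3 := h2.2
    filter_upwards [h3.mem_iff] with x hx
    exact hx
  rw [← ae_all_iff] at h1
  filter_upwards [h1] with x hx
  apply le_antisymm
  · by_contra hlt
    push Not at hlt
    obtain ⟨q, hq1, hq2⟩ := exists_rat_btwn hlt
    exact absurd ((hx q).1 hq2) (not_lt.2 hq1.le)
  · by_contra hlt
    push Not at hlt
    obtain ⟨q, hq1, hq2⟩ := exists_rat_btwn hlt
    exact absurd ((hx q).2 hq2) (not_lt.2 hq1.le)

lemma meas_of_ae_inv' {m : ℕ} {g : X → ℝ} (hg : Measurable g)
    (h : ∀ᵐ x ∂μ, g ((T ^ m) x) = g x) : Measurable[Jx μ T m] g := by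
  intro s hs
  refine ⟨hg hs, ?_⟩
  filter_upwards [h] with x hx
  show (g ((T ^ m) x) ∈ s) = (g x ∈ s)
  rw [hx]

lemma Jx_mono (hT : Measurable T ∧ Measurable T.symm ∧ MeasurePreserving T μ μ) {m m' : ℕ} (k : ℕ)
    (h : m' = k * m) : Jx μ T m ≤ Jx μ T m' := by
  intro S hS
  refine ⟨hS.1, ?_⟩
  have h1 : ∀ᵐ x ∂μ, ((T ^ m) x ∈ S) = (x ∈ S) := by
    filter_upwards [hS.2.mem_iff] with x hx
    exact propext hx
  have h2 := inv_mul' hT (g := fun x => (x ∈ S)) h1 k
  filter_upwards [h2] with x hx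
  rw [h]
  exact hx

/-- The filtration along factorials. -/
def Jf (hT : Measurable T ∧ Measurable T.symm ∧ MeasurePreserving T μ μ) : Filtration ℕ mX where
  seq i := Jx μ T i.factorial
  mono' i j hij := by
    obtain ⟨k, hk⟩ := Nat.factorial_dvd_factorial hij
    exact Jx_mono hT k (by rw [hk, mul_comm])
  le' i := Jx_le _

/-- the limit of the filtration -/
@[instance_reducible] def Ji (hT : Measurable T ∧ Measurable T.symm ∧ MeasurePreserving T μ μ) :
    MeasurableSpace X := ⨆ n, (Jf hT) n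

lemma Ji_le (hT : Measurable T ∧ Measurable T.symm ∧ MeasurePreserving T μ μ) : Ji hT ≤ mX :=
  iSup_le fun n => (Jf hT).le n

/-- truncation to `[-1, 1]` -/
noncomputable def tr1 (t : ℝ) : ℝ := max (-1) (min 1 t)

lemma tr1_meas : Measurable tr1 := measurable_const.max (measurable_const.min measurable_id)

lemma tr1_abs (t : ℝ) : |tr1 t| ≤ 1 := by
  rw [abs_le]
  exact ⟨le_max_left _ _, max_le (by norm_num) (min_le_left _ _)⟩

lemma tr1_eq {t : ℝ} (h : |t| ≤ 1) : tr1 t = t := by
  rw [abs_le] at h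
  unfold tr1
  rw [min_eq_right h.2, max_eq_right h.1]

lemma condExp_abs_le {F : X → ℝ} (hF : Measurable F) (hF1 : ∀ x, |F x| ≤ 1)
    {J : MeasurableSpace X} (hJ : J ≤ mX) : ∀ᵐ x ∂μ, |(μ[F | J]) x| ≤ 1 := by
  have hFi : Integrable F μ := Integrable.of_bound hF.aestronglyMeasurable 1
    (Eventually.of_forall fun x => by rw [Real.norm_eq_abs]; exact hF1 x)
  have h1 : μ[F | J] ≤ᵐ[μ] μ[(fun _ => (1 : ℝ)) | J] :=
    condExp_mono hFi (integrable_const _) (Eventually.of_forall fun x => (abs_le.1 (hF1 x)).2)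
  have h2 : μ[(fun _ => (-1 : ℝ)) | J] ≤ᵐ[μ] μ[F | J] :=
    condExp_mono (integrable_const _) hFi (Eventually.of_forall fun x => (abs_le.1 (hF1 x)).1)
  rw [condExp_const hJ] at h1 h2
  filter_upwards [h1, h2] with x a b
  exact abs_le.2 ⟨b, a⟩

theorem dec {X : Type} [MeasurableSpace X] (μ : Measure X) [IsProbabilityMeasure μ]
    (T : Equiv.Perm X) (hT : Measurable T ∧ Measurable T.symm ∧ MeasurePreserving T μ μ)
    (F : X → ℝ) (hF : Measurable F) (hF1 : ∀ x, |F x| ≤ 1) :
    ∃ (R : X → ℝ) (G : ℕ → X → ℝ), Measurable R ∧ (∀ x, |R x| ≤ 1) ∧ (∀ i, Measurable (G i)) ∧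
      (∀ i x, |G i x| ≤ 1) ∧ (∀ i : ℕ, ∀ᵐ x ∂μ, G i ((T ^ (i.factorial)) x) = G i x) ∧
      Tendsto (fun i => ∫ x, |R x - G i x| ∂μ) atTop (𝓝 0) ∧
      (∀ q : ℕ, 1 ≤ q → ∀ g : X → ℂ, MemLp g 2 μ → (∀ᵐ x ∂μ, g ((T ^ q) x) = g x) →
        ∫ x, ((F x - R x : ℝ) : ℂ) * g x ∂μ = 0) := by
  have hFi : Integrable F μ := Integrable.of_bound hF.aestronglyMeasurable 1
    (Eventually.of_forall fun x => by rw [Real.norm_eq_abs]; exact hF1 x)
  have hJle := Ji_le hT
  set R : X → ℝ := fun x => tr1 ((μ[F | Ji hT]) x) with hR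
  set G : ℕ → X → ℝ := fun i x => tr1 ((μ[F | (Jf hT) i]) x) with hG
  have hRae : R =ᵐ[μ] μ[F | Ji hT] := by
    filter_upwards [condExp_abs_le (μ := μ) hF hF1 hJle] with x hx
    exact tr1_eq hx
  have hGae : ∀ i, G i =ᵐ[μ] μ[F | (Jf hT) i] := by
    intro i
    filter_upwards [condExp_abs_le (μ := μ) hF hF1 ((Jf hT).le i)] with x hx
    exact tr1_eq hx
  have hRm : Measurable R := tr1_meas.comp (stronglyMeasurable_condExp.measurable.mono hJle le_rfl)
  have hGmJ : ∀ i, Measurable[Jx μ T i.factorial] (G i) := fun i =>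
    tr1_meas.comp (stronglyMeasurable_condExp.measurable)
  have hGm : ∀ i, Measurable (G i) := fun i => (hGmJ i).mono (Jx_le _) le_rfl
  refine ⟨R, G, hRm, fun x => tr1_abs _, hGm, fun i x => tr1_abs _,
    fun i => ae_inv_of_meas' (hGmJ i), ?_, ?_⟩
  · have h := tendsto_eLpNorm_condExp (μ := μ) (ℱ := Jf hT) F
    have h2 : ∀ i : ℕ, ∫ x, |R x - G i x| ∂μ =
        (eLpNorm (μ[F | (Jf hT) i] - μ[F | Ji hT]) 1 μ).toReal := by
      intro i
      rw [eLpNorm_one_eq_lintegral_enorm, ← integral_norm_eq_lintegral_enorm]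
      · apply integral_congr_ae
        filter_upwards [hGae i, hRae] with x a b
        rw [a, b, abs_sub_comm]
        rfl
      · exact (integrable_condExp.sub integrable_condExp).aestronglyMeasurable
    simp_rw [h2]
    have h3 := (ENNReal.tendsto_toReal ENNReal.zero_ne_top).comp h
    simp only [Function.comp_def, ENNReal.toReal_zero] at h3
    exact h3
  · intro q hq g hg hgi
    -- real functions
    have hreal : ∀ ψ : X → ℝ, Integrable ψ μ → (∀ᵐ x ∂μ, ψ ((T ^ q) x) = ψ x) →
        ∫ x, (F x - R x) * ψ x ∂μ = 0 := by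
      intro ψ hψ hψi
      obtain ⟨ψ', hψ'm, hψψ'⟩ := hψ.aestronglyMeasurable
      have hψ'i : Integrable ψ' μ := hψ.congr hψψ'
      have hinv : ∀ᵐ x ∂μ, ψ' ((T ^ q) x) = ψ' x := by
        filter_upwards [hψi, hψψ', (mp_pow hT q).quasiMeasurePreserving.ae hψψ'] with x a b c
        rw [← c, ← b, a]
      have h0 : Measurable[Jx μ T q] ψ' := meas_of_ae_inv' hψ'm.measurable hinv
      have hle : Jx μ T q ≤ Ji hT := by
        obtain ⟨k, hk⟩ := Nat.dvd_factorial hq le_rfl
        refine (Jx_mono hT (m' := q.factorial) k (by rw [hk, mul_comm])).trans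
          (le_iSup (Jf hT) q)
      have h1 : StronglyMeasurable[Ji hT] ψ' := (h0.mono hle le_rfl).stronglyMeasurable
      have hint2 : Integrable (ψ' * F) μ := by
        refine hψ'i.mul_bdd (c := 1) hF.aestronglyMeasurable ?_
        exact Eventually.of_forall fun x => by rw [Real.norm_eq_abs]; exact hF1 x
      have hint3 : Integrable (fun x => ψ' x * R x) μ := by
        refine hψ'i.mul_bdd (c := 1) hRm.aestronglyMeasurable ?_
        exact Eventually.of_forall fun x => by rw [Real.norm_eq_abs]; exact tr1_abs _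
      have h2 := condExp_mul_of_stronglyMeasurable_left h1 hint2 hFi
      have h3 : ∫ x, (ψ' * F) x ∂μ = ∫ x, (μ[ψ' * F | Ji hT]) x ∂μ := (integral_condExp hJle).symm
      have h4 : ∫ x, (μ[ψ' * F | Ji hT]) x ∂μ = ∫ x, ψ' x * R x ∂μ := by
        apply integral_congr_ae
        filter_upwards [h2, hRae] with x a b
        rw [a, b]
        rfl
      have h5 : ∫ x, (F x - R x) * ψ x ∂μ = ∫ x, ((ψ' * F) x - ψ' x * R x) ∂μ := by
        apply integral_congr_ae
        filter_upwards [hψψ'] with x a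
        rw [a]
        simp only [Pi.mul_apply]
        ring
      rw [h5, integral_sub hint2 hint3, h3, h4, sub_self]
    have hgint : Integrable g μ := hg.integrable (by norm_num)
    have hre := hreal (fun x => (g x).re) hgint.re (by
      filter_upwards [hgi] with x hx; rw [hx])
    have him := hreal (fun x => (g x).im) hgint.im (by
      filter_upwards [hgi] with x hx; rw [hx])
    have hbd : ∀ x, |F x - R x| ≤ 2 := by
      intro x
      have := abs_sub (F x) (R x)
      have h1 : |R x| ≤ 1 := tr1_abs _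
      linarith [hF1 x]
    have i1 : Integrable (fun x => (F x - R x) * (g x).re) μ :=
      hgint.re.bdd_mul (c := 2) (hF.sub hRm).aestronglyMeasurable
        (Eventually.of_forall fun x => by rw [Real.norm_eq_abs]; exact hbd x)
    have i2 : Integrable (fun x => (F x - R x) * (g x).im) μ :=
      hgint.im.bdd_mul (c := 2) (hF.sub hRm).aestronglyMeasurable
        (Eventually.of_forall fun x => by rw [Real.norm_eq_abs]; exact hbd x)
    have h6 : ∀ x, ((F x - R x : ℝ) : ℂ) * g x = (((F x - R x) * (g x).re : ℝ) : ℂ) +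
        (((F x - R x) * (g x).im : ℝ) : ℂ) * Complex.I := by
      intro x
      conv_lhs => rw [← Complex.re_add_im (g x)]
      push_cast
      ring
    simp_rw [h6]
    have j1 : ∫ x, (((F x - R x) * (g x).re : ℝ) : ℂ) ∂μ = 0 := by
      have := integral_ofReal (μ := μ) (𝕜 := ℂ) (f := fun x => (F x - R x) * (g x).re)
      rw [hre] at this
      simpa using this
    have j2 : ∫ x, (((F x - R x) * (g x).im : ℝ) : ℂ) ∂μ = 0 := by
      have := integral_ofReal (μ := μ) (𝕜 := ℂ) (f := fun x => (F x - R x) * (g x).im)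
      rw [him] at this
      simpa using this
    rw [integral_add i1.ofReal (i2.ofReal.mul_const _), integral_mul_const, j1, j2]
    simp

end Pool.Agent.Lib.Pf720rt
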