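import Pool.Agent.Lib.Pf720rt.Asm

/-!
# Return times along polynomials: the case of non-commuting maps
-/

set_option autoImplicit false
set_option linter.unusedSectionVars false
set_option linter.unusedVariables false

open MeasureTheory Filter Topology Finset ProbabilityTheory

namespace Pool.Agent.Lib.Pf720rt

/-- the shift of two-sided sequences -/
def sh : Equiv.Perm (ℤ → ℂ) where
  toFun a := fun k => a (k + 1)
  invFun a := fun k => a (k - 1)
  left_inv a := by funext k; simp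
  right_inv a := by funext k; simp

lemma sh_apply (a : ℤ → ℂ) (k : ℤ) : sh a k = a (k + 1) := rfl

lemma sh_inv_apply (a : ℤ → ℂ) (k : ℤ) : sh⁻¹ a k = a (k - 1) := rfl

lemma sh_zpow (n : ℤ) : ∀ (a : ℤ → ℂ) (k : ℤ), (sh ^ n) a k = a (k + n) := by
  induction n using Int.induction_on with
  | zero => intro a k; simp
  | succ n ih =>
    intro a k
    rw [zpow_add_one, Equiv.Perm.mul_apply, ih, sh_apply]
    congr 1
    ring
  | pred n ih =>
    intro a k
    rw [zpow_sub_one, Equiv.Perm.mul_apply, ih, sh_inv_apply]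
    congr 1
    ring

/-- the shift of one-sided sequences -/
def S1 (b : ℕ → ℂ) : ℕ → ℂ := fun m => b (m + 1)

lemma S1_iter (m : ℕ) : ∀ (b : ℕ → ℂ) (j : ℕ), (S1^[m]) b j = b (j + m) := by
  induction m with
  | zero => intro b j; rfl
  | succ m ih =>
    intro b j
    rw [Function.iterate_succ_apply, ih]
    unfold S1
    congr 1

lemma meas_sh : Measurable sh := by
  refine measurable_pi_lambda _ fun k => ?_
  exact measurable_pi_apply (k + 1)

lemma meas_shs : Measurable sh.symm := by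
  refine measurable_pi_lambda _ fun k => ?_
  exact measurable_pi_apply (k - 1)

lemma meas_S1 : Measurable S1 := by
  refine measurable_pi_lambda _ fun k => ?_
  exact measurable_pi_apply (k + 1)

/-- the non-commuting case, for measurable functions -/
theorem skew_meas {Z : Type} [MeasurableSpace Z] (ρ : Measure Z) [IsProbabilityMeasure ρ]
    (T : Equiv.Perm Z) (hT : Measurable T ∧ Measurable T.symm ∧ MeasurePreserving T ρ ρ)
    (S : Z → Z) (hS : MeasurePreserving S ρ ρ)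
    (P : Polynomial ℤ) (hP : 2 ≤ P.natDegree) (f : Z → ℂ) (hfm : Measurable f)
    (hf : MemLp f ⊤ ρ)
    (hinv : ∀ k : ℤ, ∀ᵐ z ∂ρ, f ((T ^ k) (S z)) = f ((T ^ k) z))
    (g : Z → ℂ) (hgm : Measurable g) (hg : Integrable g ρ) :
    ∀ᵐ z ∂ρ, ∃ L : ℂ, Tendsto (fun N : ℕ => (N : ℂ)⁻¹ *
      ∑ m ∈ Finset.Icc 1 N, f ((T ^ (P.eval (m : ℤ))) z) * g (S^[m] z)) atTop (𝓝 L) := by
  have hTk : ∀ k : ℤ, MeasurePreserving (fun z => (T ^ k) z) ρ ρ := fun k =>
    mp_zpow hT k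
  set h : Z → (ℤ → ℂ) := fun z k => f ((T ^ k) z) with hh
  set b : Z → (ℕ → ℂ) := fun z m => g (S^[m] z) with hb
  have hhm : Measurable h := measurable_pi_lambda _ fun k => hfm.comp (hTk k).measurable
  have hbm : Measurable b := measurable_pi_lambda _ fun m => hgm.comp (hS.measurable.iterate m)
  set H : Z → (ℤ → ℂ) × (ℕ → ℂ) := fun z => (h z, b z) with hH
  have hHm : Measurable H := hhm.prodMk hbm
  set τ : Measure ((ℤ → ℂ) × (ℕ → ℂ)) := ρ.map H with hτ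
  haveI : IsProbabilityMeasure τ := Measure.isProbabilityMeasure_map hHm.aemeasurable
  have hRfst : τ.fst = ρ.map h := by
    rw [Measure.fst, hτ, Measure.map_map measurable_fst hHm]
    rfl
  haveI : IsProbabilityMeasure τ.fst := by
    rw [hRfst]; exact Measure.isProbabilityMeasure_map hhm.aemeasurable
  -- the shift preserves the first marginal
  have hsh : MeasurePreserving sh τ.fst τ.fst := by
    refine ⟨meas_sh, ?_⟩
    rw [hRfst, Measure.map_map meas_sh hhm]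
    have h1 : sh ∘ h = h ∘ T := by
      funext z k
      show f ((T ^ (k + 1)) z) = f ((T ^ k) (T z))
      rw [zpow_add_one, Equiv.Perm.mul_apply]
    rw [h1, ← Measure.map_map hhm hT.1, hT.2.2.map_eq]
  -- the shift of the second coordinate preserves the law
  have hS1 : τ.map (Prod.map id S1) = τ := by
    have h1 : (Prod.map id S1) ∘ H =ᵐ[ρ] H ∘ S := by
      have h2 : ∀ᵐ z ∂ρ, ∀ k : ℤ, f ((T ^ k) (S z)) = f ((T ^ k) z) := ae_all_iff.2 hinv
      filter_upwards [h2] with z hz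
      show (h z, S1 (b z)) = (h (S z), b (S z))
      refine Prod.ext ?_ ?_
      · funext k
        exact (hz k).symm
      · funext m
        show g (S^[m + 1] z) = g (S^[m] (S z))
        rw [Function.iterate_succ_apply]
    rw [hτ, Measure.map_map (measurable_id.prodMap meas_S1) hHm, Measure.map_congr h1,
      ← Measure.map_map hHm hS.measurable, hS.map_eq]
  -- disintegration
  have hdis : τ.fst ⊗ₘ τ.condKernel = τ := τ.disintegrate τ.condKernel
  have hinvk : ∀ᵐ x ∂τ.fst, (τ.condKernel x).map S1 = τ.condKernel x := by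
    have h1 : τ = τ.fst ⊗ₘ (τ.condKernel.map S1) := by
      rw [Measure.compProd_map meas_S1, hdis, hS1]
    have h2 := eq_condKernel_of_measure_eq_compProd (ρ := τ) (τ.condKernel.map S1) h1
    filter_upwards [h2] with x hx
    rwa [Kernel.map_apply _ meas_S1] at hx
  have hgint : ∀ᵐ x ∂τ.fst, Integrable (fun y : ℕ → ℂ => y 0) (τ.condKernel x) := by
    have h1 : Integrable (fun p : (ℤ → ℂ) × (ℕ → ℂ) => p.2 0) (τ.fst ⊗ₘ τ.condKernel) := by
      rw [hdis, hτ]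
      have hm0 : Measurable (fun p : (ℤ → ℂ) × (ℕ → ℂ) => p.2 0) :=
        (measurable_pi_apply 0).comp measurable_snd
      rw [integrable_map_measure hm0.aestronglyMeasurable hHm.aemeasurable]
      exact hg
    exact ((Measure.integrable_compProd_iff h1.aestronglyMeasurable).1 h1).1
  have hf0 : MemLp (fun a : ℤ → ℂ => a 0) ⊤ τ.fst := by
    rw [hRfst, memLp_map_measure_iff (measurable_pi_apply 0).aestronglyMeasurable
      hhm.aemeasurable]
    have : (fun a : ℤ → ℂ => a 0) ∘ h = f := by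
      funext z
      show f ((T ^ (0 : ℤ)) z) = f z
      simp
    rw [this]
    exact hf
  have key := main τ.fst sh ⟨meas_sh, meas_shs, hsh⟩ P hP (fun a => a 0) hf0
  have key2 : ∀ᵐ x ∂τ.fst, ∀ᵐ y ∂(τ.condKernel x), ∃ L : ℂ, Tendsto (fun N : ℕ => (N : ℂ)⁻¹ *
      ∑ m ∈ Finset.Icc 1 N, ((sh ^ (P.eval (m : ℤ))) x) 0 * (S1^[m] y) 0) atTop (𝓝 L) := by
    filter_upwards [key, hinvk, hgint] with x h1 h2 h3
    exact h1 (ℕ → ℂ) (τ.condKernel x) S1 ⟨meas_S1, h2⟩ (fun y => y 0) h3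
  have key3 : ∀ᵐ p ∂(τ.fst ⊗ₘ τ.condKernel), ∃ L : ℂ, Tendsto (fun N : ℕ => (N : ℂ)⁻¹ *
      ∑ m ∈ Finset.Icc 1 N, ((sh ^ (P.eval (m : ℤ))) p.1) 0 * (S1^[m] p.2) 0) atTop (𝓝 L) := by
    refine Measure.ae_compProd_of_ae_ae ?_ key2
    refine measurableSet_exists_tendsto fun N => ?_
    refine Measurable.const_mul ?_ _
    refine Finset.measurable_sum _ fun m _ => ?_
    refine Measurable.mul ?_ ?_
    · simp only [sh_zpow]
      exact (measurable_pi_apply _).comp measurable_fst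
    · simp only [S1_iter]
      exact (measurable_pi_apply _).comp measurable_snd
  rw [hdis] at key3
  have key4 := ae_of_ae_map hHm.aemeasurable key3
  filter_upwards [key4] with z hz
  obtain ⟨L, hL⟩ := hz
  refine ⟨L, ?_⟩
  refine hL.congr fun N => ?_
  congr 1
  refine Finset.sum_congr rfl fun m _ => ?_
  rw [sh_zpow, S1_iter, zero_add, zero_add]

/-- the non-commuting case, `L^∞` times `L^1` -/
theorem skew {Z : Type} [MeasurableSpace Z] (ρ : Measure Z) [IsProbabilityMeasure ρ]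
    (T : Equiv.Perm Z) (hT : Measurable T ∧ Measurable T.symm ∧ MeasurePreserving T ρ ρ)
    (S : Z → Z) (hS : MeasurePreserving S ρ ρ)
    (P : Polynomial ℤ) (hP : 2 ≤ P.natDegree) (f : Z → ℂ) (hf : MemLp f ⊤ ρ)
    (hinv : ∀ k : ℤ, ∀ᵐ z ∂ρ, f ((T ^ k) (S z)) = f ((T ^ k) z))
    (g : Z → ℂ) (hg : Integrable g ρ) :
    ∀ᵐ z ∂ρ, ∃ L : ℂ, Tendsto (fun N : ℕ => (N : ℂ)⁻¹ *
      ∑ m ∈ Finset.Icc 1 N, f ((T ^ (P.eval (m : ℤ))) z) * g (S^[m] z)) atTop (𝓝 L) := by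
  have hTk : ∀ k : ℤ, MeasurePreserving (fun z => (T ^ k) z) ρ ρ := fun k => mp_zpow hT k
  obtain ⟨f', hf'm, hff'⟩ := hf.1
  obtain ⟨g', hg'm, hgg'⟩ := hg.1
  have hfk : ∀ᵐ z ∂ρ, ∀ k : ℤ, f ((T ^ k) z) = f' ((T ^ k) z) :=
    ae_all_iff.2 fun k => (hTk k).quasiMeasurePreserving.ae hff'
  have hfkS : ∀ᵐ z ∂ρ, ∀ k : ℤ, f ((T ^ k) (S z)) = f' ((T ^ k) (S z)) :=
    ae_all_iff.2 fun k => ((hTk k).comp hS).quasiMeasurePreserving.ae hff'
  have hgk : ∀ᵐ z ∂ρ, ∀ m : ℕ, g (S^[m] z) = g' (S^[m] z) :=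
    ae_all_iff.2 fun m => (hS.iterate m).quasiMeasurePreserving.ae hgg'
  have key := skew_meas ρ T hT S hS P hP f' hf'm.measurable (hf.ae_eq hff')
    (fun k => by
      filter_upwards [hfk, hfkS, hinv k] with z h1 h2 h3
      rw [← h1 k, ← h2 k, h3]) g' hg'm.measurable (hg.congr hgg')
  filter_upwards [key, hfk, hgk] with z hz h1 h2
  obtain ⟨L, hL⟩ := hz
  refine ⟨L, hL.congr fun N => ?_⟩
  congr 1
  refine Finset.sum_congr rfl fun m _ => ?_
  rw [h1, h2]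

/-- iterating the invariance -/
lemma inv_all {Z : Type} [MeasurableSpace Z] (ρ : Measure Z) [IsProbabilityMeasure ρ]
    (T₁ T₂ : Equiv.Perm Z)
    (hT₂ : Measurable T₂ ∧ Measurable T₂.symm ∧ MeasurePreserving T₂ ρ ρ) (f : Z → ℂ)
    (hinv : ∀ k : ℤ, ∀ᵐ z ∂ρ, f ((T₁ ^ k) (T₂ z)) = f ((T₁ ^ k) z)) :
    ∀ᵐ z ∂ρ, ∀ k l : ℤ, f ((T₁ ^ k) ((T₂ ^ l) z)) = f ((T₁ ^ k) z) := by
  have h0 : ∀ᵐ z ∂ρ, ∀ k : ℤ, f ((T₁ ^ k) (T₂ z)) = f ((T₁ ^ k) z) := ae_all_iff.2 hinv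
  have h1 : ∀ᵐ z ∂ρ, ∀ l k : ℤ, f ((T₁ ^ k) (T₂ ((T₂ ^ l) z))) = f ((T₁ ^ k) ((T₂ ^ l) z)) :=
    ae_all_iff.2 fun l => (mp_zpow hT₂ l).quasiMeasurePreserving.ae h0
  filter_upwards [h1] with z hz k l
  induction l using Int.induction_on with
  | zero => simp
  | succ n ih =>
    rw [zpow_add_one, ← (Commute.zpow_self T₂ (n : ℤ)).symm.eq, Equiv.Perm.mul_apply, hz, ih]
  | pred n ih =>
    have e : T₂ ((T₂ ^ (-(n : ℤ) - 1)) z) = (T₂ ^ (-(n : ℤ))) z := by
      rw [← Equiv.Perm.mul_apply, ← zpow_one_add]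
      congr 2
      ring
    rw [← hz, e, ih]

/-- the form of the problem: `n = 2`, two maps without any relation between them -/
theorem two {Z : Type} [MeasurableSpace Z] (ρ : Measure Z) [IsProbabilityMeasure ρ]
    (T₁ T₂ : Equiv.Perm Z)
    (hT₁ : Measurable T₁ ∧ Measurable T₁.symm ∧ MeasurePreserving T₁ ρ ρ)
    (hT₂ : Measurable T₂ ∧ Measurable T₂.symm ∧ MeasurePreserving T₂ ρ ρ)
    (P Q : Polynomial ℤ) (hP : 2 ≤ P.natDegree) (a b : ℤ) (f : Z → ℂ) (hf : MemLp f ⊤ ρ)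
    (hinv : ∀ k : ℤ, ∀ᵐ z ∂ρ, f ((T₁ ^ k) (T₂ z)) = f ((T₁ ^ k) z))
    (g : Z → ℂ) (hg : Integrable g ρ) :
    ∀ᵐ z ∂ρ, ∃ L : ℂ, Tendsto (fun N : ℕ => (N : ℂ)⁻¹ *
      ∑ m ∈ Finset.Icc 1 N, f ((T₁ ^ (P.eval (m : ℤ))) ((T₂ ^ (Q.eval (m : ℤ))) z)) *
        g ((T₂ ^ (a * m + b)) z)) atTop (𝓝 L) := by
  have hall := inv_all ρ T₁ T₂ hT₂ f hinv
  have hga : MeasurePreserving (fun z => (T₂ ^ a) z) ρ ρ := mp_zpow hT₂ a
  have hgb : MeasurePreserving (fun z => (T₂ ^ b) z) ρ ρ := mp_zpow hT₂ b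
  have key := skew ρ T₁ hT₁ (fun z => (T₂ ^ a) z) hga P hP f hf
    (fun k => by
      filter_upwards [hall] with z hz
      exact hz k a) (fun z => g ((T₂ ^ b) z)) (hgb.integrable_comp_of_integrable hg)
  filter_upwards [key, hall] with z hz h1
  obtain ⟨L, hL⟩ := hz
  refine ⟨L, hL.congr fun N => ?_⟩
  congr 1
  refine Finset.sum_congr rfl fun m _ => ?_
  have h2 : (fun z => (T₂ ^ a) z)^[m] z = (T₂ ^ (a * m)) z := by
    rw [show (fun z => (T₂ ^ a) z) = ((T₂ ^ a : Equiv.Perm Z) : Z → Z) from rfl,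
      Equiv.Perm.iterate_eq_pow, zpow_mul, zpow_natCast]
  rw [h1, h2, ← Equiv.Perm.mul_apply, ← zpow_add, add_comm b]

end Pool.Agent.Lib.Pf720rt
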