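import Pool.Agent.Lib.Pf720rt.Birk

/-!
# Tools for the return times theorem: shifted polynomials, periodic weights, small limits
-/

set_option autoImplicit false
set_option linter.unusedSectionVars false
set_option linter.unusedVariables false

open MeasureTheory Filter Topology Finset

namespace Pool.Agent.Lib.Pf720rt

/-- the coefficient of degree `D - 1` of `P (m + h) - P m` -/
lemma coeff_shift_sub (P : Polynomial ℤ) (h : ℤ) (D : ℕ) (hD : P.natDegree = D + 1) :
    (P.comp (Polynomial.X + Polynomial.C h) - P).coeff D = (D + 1) * P.coeff (D + 1) * h := by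
  have h1 : P.comp (Polynomial.X + Polynomial.C h) = Polynomial.taylor h P := rfl
  rw [h1, Polynomial.coeff_sub, Polynomial.taylor_coeff]
  have h2 : (Polynomial.hasseDeriv D P).natDegree < 2 := by
    have := Polynomial.natDegree_hasseDeriv_le P D
    omega
  rw [Polynomial.eval_eq_sum_range' h2]
  rw [Finset.sum_range_succ, Finset.sum_range_one]
  simp only [Polynomial.hasseDeriv_coeff, pow_zero, pow_one, zero_add, Nat.choose_self, Nat.cast_one,
    one_mul, mul_one]
  rw [add_comm 1 D, Nat.choose_succ_self_right]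
  push_cast
  ring

lemma coeff_shift_top (P : Polynomial ℤ) (h : ℤ) :
    (P.comp (Polynomial.X + Polynomial.C h) - P).coeff P.natDegree = 0 := by
  have h1 : P.comp (Polynomial.X + Polynomial.C h) = Polynomial.taylor h P := rfl
  rw [h1, Polynomial.coeff_sub, Polynomial.taylor_coeff]
  have h2 : (Polynomial.hasseDeriv P.natDegree P).natDegree < 1 := by
    have := Polynomial.natDegree_hasseDeriv_le P P.natDegree
    omega
  rw [Polynomial.eval_eq_sum_range' h2, Finset.sum_range_one]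
  simp [Polynomial.hasseDeriv_coeff]

lemma shift_deg (P : Polynomial ℤ) (h : ℤ) (hh : h ≠ 0) (hP : 2 ≤ P.natDegree) :
    1 ≤ (P.comp (Polynomial.X + Polynomial.C h) - P).natDegree ∧
      (P.comp (Polynomial.X + Polynomial.C h) - P).natDegree ≠ P.natDegree := by
  obtain ⟨D, hD⟩ : ∃ D, P.natDegree = D + 1 := ⟨P.natDegree - 1, by omega⟩
  have h1 := coeff_shift_sub P h D hD
  have h2 : P.coeff (D + 1) ≠ 0 := by
    rw [← hD]
    have : P ≠ 0 := by rintro rfl; simp at hP
    exact Polynomial.leadingCoeff_ne_zero.2 this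
  have h3 : (P.comp (Polynomial.X + Polynomial.C h) - P).coeff D ≠ 0 := by
    rw [h1]
    refine mul_ne_zero (mul_ne_zero ?_ h2) hh
    positivity
  have h4 := Polynomial.le_natDegree_of_ne_zero h3
  refine ⟨by omega, fun h5 => ?_⟩
  have h6 := coeff_shift_top P h
  rw [← h5] at h6
  have h7 : P.comp (Polynomial.X + Polynomial.C h) - P = 0 :=
    Polynomial.leadingCoeff_eq_zero.1 h6
  rw [h7] at h3
  simp at h3

/-- a sequence which is eventually `ε`-close to some number, for every `ε`, converges -/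
lemma conv_of_approx {u : ℕ → ℂ} (h : ∀ ε : ℝ, 0 < ε → ∃ L : ℂ, ∀ᶠ N in atTop, ‖u N - L‖ ≤ ε) :
    ∃ L : ℂ, Tendsto u atTop (𝓝 L) := by
  apply cauchySeq_tendsto_of_complete
  rw [Metric.cauchySeq_iff]
  intro ε hε
  obtain ⟨L, hL⟩ := h (ε / 3) (by positivity)
  obtain ⟨N₀, hN₀⟩ := eventually_atTop.1 hL
  refine ⟨N₀, fun m hm n hn => ?_⟩
  have h1 := hN₀ m hm
  have h2 := hN₀ n hn
  rw [dist_eq_norm]
  calc ‖u m - u n‖ = ‖(u m - L) - (u n - L)‖ := by congr 1; ring
    _ ≤ ‖u m - L‖ + ‖u n - L‖ := norm_sub_le _ _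
    _ < ε := by linarith

/-- averages with small integrals and a limit have small limits -/
lemma ae_small {X : Type*} [MeasurableSpace X] {μ : Measure X} [IsProbabilityMeasure μ]
    (u : ℕ → ℕ → X → ℝ) (hu0 : ∀ i N x, 0 ≤ u i N x) (hum : ∀ i N, Measurable (u i N))
    (hui : ∀ i N, Integrable (u i N) μ)
    (c : ℕ → ℝ) (hc : Tendsto c atTop (𝓝 0)) (hint : ∀ i N, ∫ x, u i N x ∂μ ≤ c i)
    (hconv : ∀ i, ∀ᵐ x ∂μ, ∃ L : ℝ, Tendsto (fun N => u i N x) atTop (𝓝 L)) :
    ∀ᵐ x ∂μ, ∀ ε : ℝ, 0 < ε → ∃ i, ∀ᶠ N in atTop, u i N x < ε := by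
  have hall : ∀ᵐ x ∂μ, ∀ i, ∃ L : ℝ, Tendsto (fun N => u i N x) atTop (𝓝 L) := ae_all_iff.2 hconv
  set U : ℕ → X → ENNReal := fun i x => liminf (fun N => ENNReal.ofReal (u i N x)) atTop with hU
  have hUm : ∀ i, Measurable (U i) := fun i =>
    Measurable.liminf fun N => (hum i N).ennreal_ofReal
  have hUint : ∀ i, ∫⁻ x, U i x ∂μ ≤ ENNReal.ofReal (c i) := by
    intro i
    refine (lintegral_liminf_le fun N => (hum i N).ennreal_ofReal).trans ?_
    have h1 : ∀ N, ∫⁻ x, ENNReal.ofReal (u i N x) ∂μ ≤ ENNReal.ofReal (c i) := by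
      intro N
      rw [← ofReal_integral_eq_lintegral_ofReal (hui i N) (Eventually.of_forall (hu0 i N))]
      exact ENNReal.ofReal_le_ofReal (hint i N)
    refine (liminf_le_liminf (Eventually.of_forall h1)).trans ?_
    simp
  have hkey : ∀ j : ℕ, μ {x | ∀ i, ENNReal.ofReal (1 / ((j : ℝ) + 1)) ≤ U i x} = 0 := by
    intro j
    set e : ENNReal := ENNReal.ofReal (1 / ((j : ℝ) + 1)) with he
    have he0 : e ≠ 0 := by
      rw [he]
      exact (ENNReal.ofReal_pos.2 (by positivity)).ne'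
    have hetop : e ≠ ⊤ := ENNReal.ofReal_ne_top
    have h1 : ∀ i, e * μ {x | ∀ i, e ≤ U i x} ≤ ENNReal.ofReal (c i) := by
      intro i
      refine le_trans ?_ ((mul_meas_ge_le_lintegral (hUm i) e).trans (hUint i))
      gcongr
      intro hx
      exact hx i
    have h2 : Tendsto (fun i => ENNReal.ofReal (c i)) atTop (𝓝 0) := by
      have := ENNReal.tendsto_ofReal hc
      simpa using this
    have h3 : e * μ {x | ∀ i, e ≤ U i x} ≤ 0 := ge_of_tendsto' h2 h1
    have h4 := le_antisymm h3 (zero_le)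
    exact (mul_eq_zero.1 h4).resolve_left he0
  have hkey' : ∀ᵐ x ∂μ, ∀ j : ℕ, ¬ ∀ i, ENNReal.ofReal (1 / ((j : ℝ) + 1)) ≤ U i x := by
    rw [ae_all_iff]
    intro j
    rw [ae_iff]
    simpa using hkey j
  filter_upwards [hall, hkey'] with x hx hx' ε hε
  obtain ⟨j, hj⟩ := exists_nat_one_div_lt hε
  have h1 := hx' j
  push Not at h1
  obtain ⟨i, hi⟩ := h1
  refine ⟨i, ?_⟩
  obtain ⟨L, hL⟩ := hx i
  have h2 : U i x = ENNReal.ofReal L :=
    (ENNReal.tendsto_ofReal hL).liminf_eq
  rw [h2] at hi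
  have h3 : L < 1 / ((j : ℝ) + 1) := by
    by_contra hcon
    push Not at hcon
    exact absurd (ENNReal.ofReal_le_ofReal hcon) (not_le.2 hi)
  exact hL.eventually_lt_const (h3.trans hj)

/-- averages of small functions along measure-preserving maps are small -/
lemma avg_small {X : Type*} [MeasurableSpace X] {μ : Measure X} [IsProbabilityMeasure μ]
    (τ : ℕ → X → X) (hτ : ∀ m, MeasurePreserving (τ m) μ μ) (e : ℕ → X → ℝ)
    (he0 : ∀ k x, 0 ≤ e k x) (hem : ∀ k, Measurable (e k)) (hei : ∀ k, Integrable (e k) μ)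
    (hc : Tendsto (fun k => ∫ x, e k x ∂μ) atTop (𝓝 0))
    (hconv : ∀ k, ∀ᵐ x ∂μ, ∃ L : ℝ, Tendsto (fun N : ℕ => (N : ℝ)⁻¹ *
      ∑ m ∈ Finset.Icc 1 N, e k (τ m x)) atTop (𝓝 L)) :
    ∀ᵐ x ∂μ, ∀ ε : ℝ, 0 < ε → ∃ k, ∀ᶠ N : ℕ in atTop,
      (N : ℝ)⁻¹ * ∑ m ∈ Finset.Icc 1 N, e k (τ m x) < ε := by
  have hcomp : ∀ k m, Measurable fun x => e k (τ m x) := fun k m => (hem k).comp (hτ m).measurable
  have hcompi : ∀ k m, Integrable (fun x => e k (τ m x)) μ := fun k m =>
    (hτ m).integrable_comp_of_integrable (hei k)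
  have hcompv : ∀ k m, ∫ x, e k (τ m x) ∂μ = ∫ x, e k x ∂μ := by
    intro k m
    conv_rhs => rw [← (hτ m).map_eq]
    rw [integral_map (hτ m).measurable.aemeasurable (hem k).aestronglyMeasurable]
  refine ae_small (μ := μ) (fun k N x => (N : ℝ)⁻¹ * ∑ m ∈ Finset.Icc 1 N, e k (τ m x))
    (fun k N x => mul_nonneg (inv_nonneg.2 (Nat.cast_nonneg N))
      (Finset.sum_nonneg fun m _ => he0 k _))
    (fun k N => (Finset.measurable_fun_sum _ fun m _ => hcomp k m).const_mul _)
    (fun k N => (integrable_finsetSum _ fun m _ => hcompi k m).const_mul _)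
    (fun k => ∫ x, e k x ∂μ) hc (fun k N => ?_) hconv
  rw [integral_const_mul, integral_finsetSum _ fun m _ => hcompi k m,
    Finset.sum_congr rfl fun m _ => hcompv k m]
  simp only [Finset.sum_const, Nat.card_Icc, Nat.add_sub_cancel, nsmul_eq_mul]
  rcases Nat.eq_zero_or_pos N with h0 | hpos
  · subst h0
    simp only [Nat.cast_zero, zero_mul, mul_zero]
    exact integral_nonneg fun x => he0 k x
  · rw [← mul_assoc, inv_mul_cancel₀ (by exact_mod_cast hpos.ne'), one_mul]

/-- periodic weights -/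
lemma per {Y : Type*} [MeasurableSpace Y] {ν : Measure Y} [IsProbabilityMeasure ν] {S : Y → Y}
    (hS : MeasurePreserving S ν ν) (c : ℕ → ℂ) (q : ℕ) (hq : 1 ≤ q) (hc : ∀ m, c (m + q) = c m)
    {g : Y → ℂ} (hg : Measurable g) (hg1 : ∀ y, ‖g y‖ ≤ 1) :
    ∀ᵐ y ∂ν, ∃ L : ℂ, Tendsto (fun N : ℕ => (N : ℂ)⁻¹ *
      ∑ m ∈ Finset.Icc 1 N, c m * g (S^[m] y)) atTop (𝓝 L) := by
  haveI : NeZero q := ⟨by omega⟩
  letI : MeasurableSpace (ZMod q) := ⊤
  haveI : DiscreteMeasurableSpace (ZMod q) := ⟨fun _ => trivial⟩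
  have hrot : MeasurePreserving (fun r : ZMod q => r + 1) Measure.count Measure.count := by
    refine ⟨measurable_from_top, ?_⟩
    ext s hs
    rw [Measure.map_apply measurable_from_top hs]
    have hpre : (fun r : ZMod q => r + 1) ⁻¹' s = (Equiv.addRight (1 : ZMod q)).symm '' s := by
      rw [Equiv.image_symm_eq_preimage]
      rfl
    rw [hpre, Measure.count_injective_image (Equiv.injective _)]
  have hprod : MeasurePreserving (Prod.map S fun r : ZMod q => r + 1)
      (ν.prod (Measure.count : Measure (ZMod q))) (ν.prod Measure.count) := hS.prod hrot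
  have hcz : ∀ m : ℕ, c ((m : ZMod q)).val = c m := by
    intro m
    rw [ZMod.val_natCast]
    have h1 : ∀ k r : ℕ, c (r + q * k) = c r := by
      intro k r
      induction k with
      | zero => rfl
      | succ k ih => rw [mul_add, mul_one, ← add_assoc, hc, ih]
    conv_rhs => rw [← Nat.mod_add_div m q]
    rw [h1]
  set G : Y × ZMod q → ℂ := fun z => c z.2.val * g z.1 with hG
  have hcb : ∃ C : ℝ, ∀ r : ZMod q, ‖c r.val‖ ≤ C := by
    refine ⟨∑ r : ZMod q, ‖c r.val‖, fun r => ?_⟩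
    exact Finset.single_le_sum (f := fun r : ZMod q => ‖c r.val‖) (fun _ _ => norm_nonneg _)
      (Finset.mem_univ r)
  obtain ⟨C, hC⟩ := hcb
  have hGm : Measurable G :=
    (measurable_from_top (f := fun r : ZMod q => c r.val)).comp measurable_snd |>.mul
      (hg.comp measurable_fst)
  have hGi : Integrable G (ν.prod (Measure.count : Measure (ZMod q))) := by
    refine Integrable.of_bound hGm.aestronglyMeasurable C (Eventually.of_forall fun z => ?_)
    rw [hG, norm_mul]
    calc ‖c z.2.val‖ * ‖g z.1‖ ≤ C * 1 :=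
          mul_le_mul (hC _) (hg1 _) (norm_nonneg _) ((norm_nonneg _).trans (hC z.2))
      _ = C := mul_one C
  have h1 := birkhoffC hprod hGi
  have h2 := Measure.ae_ae_of_ae_prod h1
  filter_upwards [h2] with y hy
  rw [Measure.ae_count_iff] at hy
  obtain ⟨L, hL⟩ := hy 0
  refine ⟨L, hL.congr fun N => ?_⟩
  congr 1
  refine Finset.sum_congr rfl fun m _ => ?_
  have h3 : ∀ m : ℕ,
      (Prod.map S fun r : ZMod q => r + 1)^[m] (y, 0) = (S^[m] y, (m : ZMod q)) := by
    intro m
    induction m with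
    | zero => simp
    | succ m ih =>
      rw [Function.iterate_succ_apply', ih, Function.iterate_succ_apply']
      simp
  rw [h3 m, hG]
  simp only
  rw [hcz]

end Pool.Agent.Lib.Pf720rt
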