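import Pool.Agent.Lib.Pf720rt.Skew

/-!
# The Wiener-Wintner theorem for polynomial orbits
-/

set_option autoImplicit false

open MeasureTheory Filter Topology Finset

namespace Pool.Agent.Lib.Pf720rt

/-- Wiener-Wintner from the return times property -/
theorem ww_of (w : ℕ → ℂ)
    (h : ∀ (Y : Type) [MeasurableSpace Y] (ν : Measure Y) [IsProbabilityMeasure ν]
      (S : Y → Y), MeasurePreserving S ν ν → ∀ g : Y → ℂ, Integrable g ν →
      ∀ᵐ y ∂ν, ∃ L : ℂ, Tendsto (fun N : ℕ => (N : ℂ)⁻¹ *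
        ∑ m ∈ Finset.Icc 1 N, w m * g (S^[m] y)) atTop (𝓝 L)) (t : ℝ) :
    ∃ L : ℂ, Tendsto (fun N : ℕ => (N : ℂ)⁻¹ *
        ∑ m ∈ Finset.Icc 1 N, w m * Complex.exp (Complex.I * m * t)) atTop (𝓝 L) := by
  haveI : Fact (0 < 2 * Real.pi) := ⟨Real.two_pi_pos⟩
  set ν : Measure (AddCircle (2 * Real.pi)) := AddCircle.haarAddCircle with hν
  set s : AddCircle (2 * Real.pi) := (t : AddCircle (2 * Real.pi)) with hs
  have hS : MeasurePreserving (fun y : AddCircle (2 * Real.pi) => y + s) ν ν :=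
    measurePreserving_add_right ν s
  have hg : Integrable (fun y : AddCircle (2 * Real.pi) => fourier 1 y) ν := by
    refine Integrable.of_bound (map_continuous (fourier 1)).aestronglyMeasurable 1 ?_
    refine Eventually.of_forall fun y => ?_
    simp
  have key := h (AddCircle (2 * Real.pi)) ν _ hS _ hg
  obtain ⟨y, L, hL⟩ := key.exists
  have hne : (fourier 1 y : ℂ) ≠ 0 := by
    intro h0
    have h1 : ‖(fourier 1 y : ℂ)‖ = 1 := by simp
    rw [h0] at h1
    simp at h1
  refine ⟨(fourier 1 y)⁻¹ * L, (hL.const_mul (fourier 1 y : ℂ)⁻¹).congr fun N => ?_⟩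
  have hit : ∀ m : ℕ, (fun y : AddCircle (2 * Real.pi) => y + s)^[m] y = y + m • s := by
    intro m
    induction m with
    | zero => simp
    | succ m ih =>
      rw [Function.iterate_succ_apply', ih, succ_nsmul, add_assoc]
  have hexp : ∀ m : ℕ, (fourier 1 (y + m • s) : ℂ) =
      fourier 1 y * Complex.exp (Complex.I * m * t) := by
    intro m
    have h1 : (fourier 1 (y + m • s) : ℂ) = fourier 1 y * fourier 1 (m • s) := by
      simp [fourier_apply, AddCircle.toCircle_add]
    rw [h1]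
    congr 1
    have h2 : (m • s : AddCircle (2 * Real.pi)) = (((m : ℝ) * t : ℝ) : AddCircle (2 * Real.pi)) := by
      rw [hs, ← AddCircle.coe_nsmul, nsmul_eq_mul]
    rw [h2, fourier_coe_apply]
    congr 1
    have hpi : (Real.pi : ℂ) ≠ 0 := by exact_mod_cast Real.pi_ne_zero
    push_cast
    field_simp
  rw [← mul_assoc, mul_comm (fourier 1 y : ℂ)⁻¹, mul_assoc, Finset.mul_sum]
  congr 1
  refine Finset.sum_congr rfl fun m _ => ?_
  rw [hit, hexp]
  field_simp

end Pool.Agent.Lib.Pf720rt
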